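import Mathlib

/-! Block determinants of matrices over a ring with a matrix representation, and the multiplicative
invariant `Del` of torsion modules with a finite free resolution. -/

namespace Pool.Agent.SLone

open Matrix

universe u

section
variable {B : Type u} [Ring B] {L : Type u} [Field L] {n : ℕ}

/-- The determinant over `L` of a square matrix over `B`, where `B` acts on `L ^ n` by `σ`. -/
noncomputable def dt (σ : B →+* Matrix (Fin n) (Fin n) L) {ι : Type} [Fintype ι] [DecidableEq ι]
    (G : Matrix ι ι B) : L :=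
  (Matrix.comp ι ι (Fin n) (Fin n) L (G.map σ)).det

/-- The cokernel of right multiplication by a matrix on row vectors. -/
abbrev Coker {ι : Type} [Fintype ι] (G : Matrix ι ι B) : Type u :=
  (ι → B) ⧸ LinearMap.range G.vecMulLinear

/-- `U` contains the determinants of all invertible matrices over `B`. -/
def AutTriv (σ : B →+* Matrix (Fin n) (Fin n) L) (U : Subgroup Lˣ) : Prop :=
  ∀ (ι : Type) [Fintype ι] [DecidableEq ι] (G : Matrix ι ι B), IsUnit G →
    ∀ h : dt σ G ≠ 0, Units.mk0 _ h ∈ U

/-- `Del σ U d N x`: the `B`-module `N` has the invariant `x`, computed by a resolution of length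
`d` by cokernels of matrices with nonzero determinant. -/
def Del (σ : B →+* Matrix (Fin n) (Fin n) L) (U : Subgroup Lˣ) :
    ℕ → ∀ (N : Type u) [AddCommGroup N] [Module B N], Lˣ ⧸ U → Prop
  | 0 => fun N _ _ x => ∃ (ι : Type) (_ : Fintype ι) (_ : DecidableEq ι) (G : Matrix ι ι B)
      (h : dt σ G ≠ 0), Nonempty (Coker G ≃ₗ[B] N) ∧ x = QuotientGroup.mk (Units.mk0 _ h)
  | d + 1 => fun N _ _ x => ∃ (P : Type u) (_ : AddCommGroup P) (_ : Module B P) (f : P →ₗ[B] N),
      Function.Surjective f ∧ ∃ y z : Lˣ ⧸ U,
        (∃ (ι : Type) (_ : Fintype ι) (_ : DecidableEq ι) (G : Matrix ι ι B)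
          (h : dt σ G ≠ 0), Nonempty (Coker G ≃ₗ[B] P) ∧ y = QuotientGroup.mk (Units.mk0 _ h)) ∧
        Del σ U d (LinearMap.ker f) z ∧ x = y / z

end

section
variable (R : Type u) [CommRing R] (B : Type u) [Ring B] [Algebra R B]

/-- `N` is killed by the ideal `a` of `R`. -/
def Killed (a : Ideal R) (N : Type u) [AddCommGroup N] [Module B N] : Prop :=
  ∀ r ∈ a, ∀ x : N, algebraMap R B r • x = 0

/-- `N` is killed by a nonzero element of `R`. -/
def Tors (N : Type u) [AddCommGroup N] [Module B N] : Prop :=
  ∃ r : R, r ≠ 0 ∧ ∀ x : N, algebraMap R B r • x = 0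

/-- A function on `B`-modules with values in a commutative group which is invariant under
isomorphism and multiplicative on short exact sequences of finitely generated torsion modules. -/
structure DeltaFn (G : Type u) [CommGroup G] where
  /-- the value -/
  δ : ∀ (N : Type u) [AddCommGroup N] [Module B N], G
  congr : ∀ {N N' : Type u} [AddCommGroup N] [Module B N] [AddCommGroup N'] [Module B N'],
    (N ≃ₗ[B] N') → δ N = δ N'
  add : ∀ {N' N N'' : Type u} [AddCommGroup N'] [Module B N'] [AddCommGroup N] [Module B N]
    [AddCommGroup N''] [Module B N''] [Module.Finite B N] (_ : Tors R B N) (i : N' →ₗ[B] N)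
    (p : N →ₗ[B] N'') (_ : Function.Injective i) (_ : Function.Surjective p)
    (_ : Function.Exact i p), δ N = δ N' * δ N''

end

end Pool.Agent.SLone
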