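import Pool.Agent.PurNrd.Length
import Pool.Agent.PurNrd.Simple
import Pool.Agent.PurNrd.ModClass
import Pool.Agent.SLone.Defs

/-! The invariant of a torsion module depends only on its lengths at the primes of height one,
if this is so for modules killed by such a prime. -/

namespace Pool.Agent.SLone

open Pool.Agent.PurNrd TensorProduct

universe u

section
variable {R : Type u} [CommRing R] {B : Type u} [Ring B] [Algebra R B] {G : Type u} [CommGroup G]

/-- a bundled finitely generated module over `B` with its structure over `R` -/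
structure FMod (R : Type u) [CommRing R] (B : Type u) [Ring B] [Algebra R B] where
  /-- the module -/
  M : Type u
  /-- structure -/
  [ab : AddCommGroup M]
  /-- structure -/
  [mB : Module B M]
  /-- structure -/
  [mR : Module R M]
  /-- structure -/
  [st : IsScalarTower R B M]
  /-- structure -/
  [fin : Module.Finite B M]

attribute [instance] FMod.ab FMod.mB FMod.mR FMod.st FMod.fin

theorem DeltaFn.of_subsingleton [Nontrivial R] (Δ : DeltaFn R B G) (N : Type u) [AddCommGroup N]
    [Module B N] [Subsingleton N] : Δ.δ N = 1 := by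
  have : Module.Finite B N := ⟨⟨∅, Subsingleton.elim _ _⟩⟩
  have h := Δ.add (N' := N) (N := N) (N'' := N) ⟨1, one_ne_zero, fun x => Subsingleton.elim _ _⟩
    LinearMap.id LinearMap.id (fun _ _ _ => Subsingleton.elim _ _)
    (fun x => ⟨x, Subsingleton.elim _ _⟩)
    (fun x => ⟨fun _ => ⟨x, Subsingleton.elim _ _⟩, fun _ => Subsingleton.elim _ _⟩)
  exact (mul_eq_left.1 h.symm)

theorem lp_zero_of_subsingleton (q : Ideal R) [q.IsPrime] (N : Type u) [AddCommGroup N]
    [Module R N] [Subsingleton N] : lp (R := R) (Localization.AtPrime q) N = 0 := by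
  rw [Pool.Agent.PurNrd.lp, Module.length_eq_zero_iff]
  infer_instance

theorem lp_zero_of_killed (q : Ideal R) [q.IsPrime] (N : Type u) [AddCommGroup N]
    [Module R N] (s : R) (hs : s ∉ q) (h : ∀ x : N, s • x = 0) :
    lp (R := R) (Localization.AtPrime q) N = 0 := by
  rw [Pool.Agent.PurNrd.lp, Module.length_eq_zero_iff]
  have hu : IsUnit (algebraMap R (Localization.AtPrime q) s) :=
    IsLocalization.map_units (Localization.AtPrime q) (⟨s, hs⟩ : q.primeCompl)
  refine ⟨fun a b => ?_⟩
  have key : ∀ z : Localization.AtPrime q ⊗[R] N,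
      algebraMap R (Localization.AtPrime q) s • z = 0 := by
    intro z
    induction z using TensorProduct.induction_on with
    | zero => simp
    | tmul x y =>
      rw [algebraMap_smul, ← TensorProduct.tmul_smul, h, TensorProduct.tmul_zero]
    | add x y hx hy => rw [smul_add, hx, hy, add_zero]
  have h1 : ∀ z : Localization.AtPrime q ⊗[R] N, z = 0 := fun z =>
    (hu.smul_eq_zero).1 (key z)
  rw [h1 a, h1 b]

variable [IsDomain R]

theorem eq_span_of_mem {π : R} (hπ : Prime π) (q : Ideal R) [hq : q.IsPrime] (hq1 : q.height = 1)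
    (h : π ∈ q) : q = Ideal.span {π} := by
  have hp : (Ideal.span {π}).IsPrime := (Ideal.span_singleton_prime hπ.ne_zero).2 hπ
  by_contra hne
  have hlt : Ideal.span {π} < q :=
    lt_of_le_of_ne ((Ideal.span_singleton_le_iff_mem _).2 h) (Ne.symm hne)
  have hb : (⊥ : Ideal R) < Ideal.span {π} := by
    rw [bot_lt_iff_ne_bot, Ne, Ideal.span_singleton_eq_bot]
    exact hπ.ne_zero
  have h0 : (⊥ : Ideal R).IsPrime := Ideal.isPrime_bot
  have h1 := Ideal.height_add_one_le_of_lt_of_isPrime hb
  have h2 := Ideal.height_add_one_le_of_lt_of_isPrime hlt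
  rw [hq1] at h2
  have h3 : (1 : ℕ∞) + 1 ≤ 1 := by
    refine le_trans ?_ h2
    gcongr
    exact le_trans (by simp) h1
  exact absurd h3 (by decide)

theorem height_span_prime [IsNoetherianRing R] {π : R} (hπ : Prime π) : (Ideal.span {π}).height = 1 := by
  have hp : (Ideal.span {π}).IsPrime := (Ideal.span_singleton_prime hπ.ne_zero).2 hπ
  have hb : (⊥ : Ideal R) < Ideal.span {π} := by
    rw [bot_lt_iff_ne_bot, Ne, Ideal.span_singleton_eq_bot]
    exact hπ.ne_zero
  have h0 : (⊥ : Ideal R).IsPrime := Ideal.isPrime_bot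
  refine le_antisymm ?_ ?_
  · exact Ideal.height_le_one_of_isPrincipal_of_mem_minimalPrimes (Ideal.span {π}) _
      (by rw [Ideal.minimalPrimes_eq_subsingleton_self]; rfl)
  · exact le_trans (by simp) (Ideal.height_add_one_le_of_lt_of_isPrime hb)


/-- the second half of a devissage step: the values of a direct sum -/
theorem DeltaFn.prod_eq (Δ : DeltaFn R B G) (N N' : Type u) [AddCommGroup N] [Module B N]
    [Module.Finite B N] [AddCommGroup N'] [Module B N'] [Module.Finite B N'] (hN : Tors R B N)
    (hN' : Tors R B N') : Δ.δ (N × N') = Δ.δ N * Δ.δ N' := by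
  obtain ⟨a, ha, h1⟩ := hN
  obtain ⟨b, hb, h2⟩ := hN'
  refine Δ.add ⟨a * b, mul_ne_zero ha hb, ?_⟩ (LinearMap.inl B N N') (LinearMap.snd B N N')
    LinearMap.inl_injective LinearMap.snd_surjective ?_
  · rintro ⟨x, y⟩
    rw [Prod.smul_mk, map_mul]
    refine Prod.ext ?_ ?_
    · rw [← map_mul, mul_comm a b, map_mul, mul_smul, h1, smul_zero]; rfl
    · change (algebraMap R B a * algebraMap R B b) • y = 0
      rw [mul_smul, h2, smul_zero]
  · rintro ⟨x, y⟩
    constructor
    · intro h
      exact ⟨x, Prod.ext rfl h.symm⟩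
    · rintro ⟨z, hz⟩
      rw [← hz]; rfl

omit [IsDomain R] in
theorem lp_prod (q : Ideal R) [q.IsPrime] (N N' : Type u) [AddCommGroup N] [Module R N]
    [AddCommGroup N'] [Module R N'] : lp (R := R) (Localization.AtPrime q) (N × N') =
      lp (R := R) (Localization.AtPrime q) N + lp (R := R) (Localization.AtPrime q) N' := by
  refine lp_add (Localization.AtPrime q) (LinearMap.inl R N N') (LinearMap.snd R N N')
    LinearMap.inl_injective LinearMap.snd_surjective ?_
  rintro ⟨x, y⟩
  constructor
  · intro h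
    exact ⟨x, Prod.ext rfl h.symm⟩
  · rintro ⟨z, hz⟩
    rw [← hz]; rfl

/-- devissage: a module killed by `r` has the same invariants as a sum of modules killed by the
prime factors of `r` -/
theorem exists_family [IsNoetherianRing R] [UniqueFactorizationMonoid R] [Module.Finite R B]
    (Δ : DeltaFn R B G) (S : Finset (Ideal R))
    (hS : ∀ q ∈ S, q.IsPrime ∧ q.height = 1) (r : R) (hr : r ≠ 0)
    (hrS : ∀ π : R, Prime π → π ∣ r → Ideal.span {π} ∈ S) :
    ∀ (N : Type u) [AddCommGroup N] [Module B N] [Module.Finite B N] [Module R N]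
      [IsScalarTower R B N], (∀ x : N, r • x = 0) →
      ∃ M : Ideal R → FMod R B, (∀ q ∈ S, ∀ s ∈ q, ∀ x : (M q).M, s • x = 0) ∧
        Δ.δ N = ∏ q ∈ S, Δ.δ (M q).M ∧
        ∀ q ∈ S, ∀ _ : q.IsPrime, lp (R := R) (Localization.AtPrime q) N =
          lp (R := R) (Localization.AtPrime q) (M q).M := by
  classical
  have hnB : IsNoetherianRing B := by
    have : IsNoetherian R B := isNoetherian_of_isNoetherianRing_of_finite R B
    exact isNoetherian_of_tower R this
  induction r using UniqueFactorizationMonoid.induction_on_prime with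
  | h₁ => exact absurd rfl hr
  | h₂ a ha =>
    intro N _ _ _ _ _ h0
    have : Subsingleton N := ⟨fun x y => by
      rw [(ha.smul_eq_zero).1 (h0 x), (ha.smul_eq_zero).1 (h0 y)]⟩
    refine ⟨fun _ => { M := PUnit }, fun q _ s _ x => rfl, ?_, fun q _ _ => ?_⟩
    · rw [Δ.of_subsingleton, Finset.prod_eq_one]
      intro q _
      exact Δ.of_subsingleton _
    · rw [lp_zero_of_subsingleton, lp_zero_of_subsingleton]
  | h₃ a π ha hπ ih =>
    intro N _ _ _ _ _ h0
    have hSπ : Ideal.span {π} ∈ S := hrS π hπ (dvd_mul_right _ _)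
    let f : N →ₗ[B] N := π • LinearMap.id
    let N1 : Submodule B N := LinearMap.range f
    have hN1 : ∀ x : N1, a • x = 0 := by
      rintro ⟨x, y, rfl⟩
      apply Subtype.ext
      change a • (π • y) = 0
      rw [smul_smul, mul_comm, h0]
    have hN2 : ∀ x : N ⧸ N1, π • x = 0 := by
      intro x
      obtain ⟨y, rfl⟩ := Submodule.Quotient.mk_surjective _ x
      rw [← Submodule.Quotient.mk_smul, Submodule.Quotient.mk_eq_zero]
      exact ⟨y, rfl⟩
    have hfinN1 : Module.Finite B N1 := inferInstance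
    obtain ⟨M, hM1, hM2, hM3⟩ := ih ha (fun ϖ h1 h2 => hrS ϖ h1 (h2.mul_left _)) N1 hN1
    have hex : Function.Exact N1.subtype N1.mkQ := fun x => by
      rw [← LinearMap.mem_ker, Submodule.ker_mkQ]
      exact ⟨fun h => ⟨⟨x, h⟩, rfl⟩, fun ⟨z, hz⟩ => hz ▸ z.2⟩
    have hTN : Tors R B N := ⟨π * a, hr, fun x => by rw [algebraMap_smul]; exact h0 x⟩
    have hs2 : Function.Surjective N1.mkQ := Submodule.mkQ_surjective _
    have hδ : Δ.δ N = Δ.δ N1 * Δ.δ (N ⧸ N1) :=
      Δ.add hTN N1.subtype N1.mkQ N1.subtype_injective hs2 hex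
    have hlp : ∀ (q : Ideal R) (_ : q.IsPrime), lp (R := R) (Localization.AtPrime q) N =
        lp (R := R) (Localization.AtPrime q) N1 +
          lp (R := R) (Localization.AtPrime q) (N ⧸ N1) := fun q _ =>
      lp_add (Localization.AtPrime q) (N1.subtype.restrictScalars R) (N1.mkQ.restrictScalars R)
        (fun x y hxy => N1.subtype_injective hxy) (fun x => hs2 x) (fun x => hex x)
    have hkill2 : ∀ s ∈ Ideal.span {π}, ∀ x : N ⧸ N1, s • x = 0 := by
      intro s hs x
      obtain ⟨c, rfl⟩ := Ideal.mem_span_singleton'.1 hs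
      rw [mul_smul, hN2, smul_zero]
    have hstep : ∀ q : Ideal R, ∃ A : FMod R B, q ∈ S → ((∀ s ∈ q, ∀ x : A.M, s • x = 0) ∧
        Δ.δ A.M = Δ.δ (M q).M * (if q = Ideal.span {π} then Δ.δ (N ⧸ N1) else 1) ∧
        ∀ _ : q.IsPrime, lp (R := R) (Localization.AtPrime q) N =
          lp (R := R) (Localization.AtPrime q) A.M) := by
      intro q
      by_cases h : q = Ideal.span {π}
      · refine ⟨{ M := (M q).M × (N ⧸ N1) }, fun hq => ⟨?_, ?_, ?_⟩⟩
        · rintro s hs ⟨x, y⟩
          refine Prod.ext (hM1 q hq s hs x) (hkill2 s (h ▸ hs) y)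
        · rw [if_pos h]
          have hπq : π ∈ q := h ▸ Ideal.mem_span_singleton_self π
          exact Δ.prod_eq (M q).M (N ⧸ N1)
            ⟨π, hπ.ne_zero, fun x => by rw [algebraMap_smul]; exact hM1 q hq π hπq x⟩
            ⟨π, hπ.ne_zero, fun x => by rw [algebraMap_smul]; exact hN2 x⟩
        · intro hqp
          rw [hlp q hqp, hM3 q hq hqp]
          exact (lp_prod q (M q).M (N ⧸ N1)).symm
      · refine ⟨M q, fun hq => ⟨hM1 q hq, ?_, ?_⟩⟩
        · rw [if_neg h, mul_one]
        · intro hqp
          have hπq : π ∉ q := fun hm => h (eq_span_of_mem hπ q (hS q hq).2 hm)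
          rw [hlp q hqp, hM3 q hq hqp, lp_zero_of_killed q (N ⧸ N1) π hπq hN2, add_zero]
    choose A hA using hstep
    refine ⟨A, fun q hq => (hA q hq).1, ?_, fun q hq hqp => (hA q hq).2.2 hqp⟩
    rw [hδ, hM2, Finset.prod_congr rfl (fun q hq => (hA q hq).2.1), Finset.prod_mul_distrib,
      Finset.prod_ite_eq' S (Ideal.span {π}) (fun _ => Δ.δ (N ⧸ N1)), if_pos hSπ]

/-- if the invariant of modules killed by a prime of height one depends only on the length, then
the invariant of torsion modules depends only on the lengths at the primes of height one -/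
theorem delta_eq_of_lp_of [IsNoetherianRing R] [UniqueFactorizationMonoid R] [Module.Finite R B]
    (Δ : DeltaFn R B G)
    (hk : ∀ (p : Ideal R) [p.IsPrime] (_ : p.height = 1)
      (N N' : Type u) [AddCommGroup N] [Module B N] [Module.Finite B N] [Module R N]
      [IsScalarTower R B N] [AddCommGroup N'] [Module B N'] [Module.Finite B N'] [Module R N']
      [IsScalarTower R B N'] (_ : Killed R B p N) (_ : Killed R B p N')
      (_ : lp (R := R) (Localization.AtPrime p) N = lp (R := R) (Localization.AtPrime p) N'),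
      Δ.δ N = Δ.δ N')
    (N N' : Type u) [AddCommGroup N] [Module B N] [Module.Finite B N] [Module R N]
    [IsScalarTower R B N] [AddCommGroup N'] [Module B N'] [Module.Finite B N'] [Module R N']
    [IsScalarTower R B N'] (hN : Tors R B N) (hN' : Tors R B N')
    (h : ∀ (p : Ideal R) [p.IsPrime], p.height = 1 →
      lp (R := R) (Localization.AtPrime p) N = lp (R := R) (Localization.AtPrime p) N') :
    Δ.δ N = Δ.δ N' := by
  classical
  obtain ⟨a, ha, h1⟩ := hN
  obtain ⟨b, hb, h2⟩ := hN'
  have hab : a * b ≠ 0 := mul_ne_zero ha hb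
  let S : Finset (Ideal R) :=
    (UniqueFactorizationMonoid.factors (a * b)).toFinset.image fun π => Ideal.span {π}
  have hS : ∀ q ∈ S, q.IsPrime ∧ q.height = 1 := by
    intro q hq
    obtain ⟨π, hπ, rfl⟩ := Finset.mem_image.1 hq
    have hp : Prime π := UniqueFactorizationMonoid.prime_of_factor π (Multiset.mem_toFinset.1 hπ)
    exact ⟨(Ideal.span_singleton_prime hp.ne_zero).2 hp, height_span_prime hp⟩
  have hrS : ∀ π : R, Prime π → π ∣ a * b → Ideal.span {π} ∈ S := by
    intro π hπ hd
    obtain ⟨q, hq, hpq⟩ := UniqueFactorizationMonoid.exists_mem_factors_of_dvd hab hπ.irreducible hd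
    exact Finset.mem_image.2 ⟨q, Multiset.mem_toFinset.2 hq,
      (Ideal.span_singleton_eq_span_singleton.2 hpq).symm⟩
  obtain ⟨M, hM1, hM2, hM3⟩ := exists_family Δ S hS (a * b) hab hrS N (fun x => by
    rw [mul_comm, mul_smul, ← algebraMap_smul B a x, h1, smul_zero])
  obtain ⟨M', hM1', hM2', hM3'⟩ := exists_family Δ S hS (a * b) hab hrS N' (fun x => by
    rw [mul_smul, ← algebraMap_smul B b x, h2, smul_zero])
  rw [hM2, hM2']
  refine Finset.prod_congr rfl fun q hq => ?_
  have hqp := (hS q hq).1
  refine hk q (hS q hq).2 _ _ (fun s hs x => ?_) (fun s hs x => ?_) ?_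
  · rw [algebraMap_smul]
    exact hM1 q hq s hs x
  · rw [algebraMap_smul]
    exact hM1' q hq s hs x
  · rw [← hM3 q hq hqp, ← hM3' q hq hqp]
    exact h q (hS q hq).2

end

end Pool.Agent.SLone
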