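import Pool.Agent.SLone.Defs

/-! Elementary properties of the block determinant. -/

namespace Pool.Agent.SLone

open Matrix

universe u

section
variable {B : Type u} [Ring B] {L : Type u} [Field L] {n : ℕ}
  (σ : B →+* Matrix (Fin n) (Fin n) L)
variable {ι κ : Type} [Fintype ι] [DecidableEq ι] [Fintype κ] [DecidableEq κ]

/-- the ring homomorphism to block matrices -/
private noncomputable def blk (σ : B →+* Matrix (Fin n) (Fin n) L) (ι : Type) [Fintype ι]
    [DecidableEq ι] : Matrix ι ι B →+* Matrix (ι × Fin n) (ι × Fin n) L :=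
  ((Matrix.compRingEquiv ι (Fin n) L) : Matrix ι ι (Matrix (Fin n) (Fin n) L) →+*
    Matrix (ι × Fin n) (ι × Fin n) L).comp σ.mapMatrix

private theorem blk_apply (G : Matrix ι ι B) (i j : ι) (a b : Fin n) :
    blk σ ι G (i, a) (j, b) = σ (G i j) a b := rfl

private theorem dt_eq (G : Matrix ι ι B) : dt σ G = (blk σ ι G).det := rfl

theorem dt_mul (G H : Matrix ι ι B) : dt σ (G * H) = dt σ G * dt σ H := by
  rw [dt_eq, dt_eq, dt_eq, map_mul, Matrix.det_mul]

theorem dt_one : dt σ (1 : Matrix ι ι B) = 1 := by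
  rw [dt_eq, map_one, Matrix.det_one]

theorem dt_blocks (A : Matrix ι ι B) (X : Matrix ι κ B) (D : Matrix κ κ B) :
    dt σ (Matrix.fromBlocks A X 0 D) = dt σ A * dt σ D := by
  have h : blk σ (ι ⊕ κ) (Matrix.fromBlocks A X 0 D) =
      (Matrix.fromBlocks (blk σ ι A) (Matrix.of fun (p : ι × Fin n) (q : κ × Fin n) =>
        σ (X p.1 q.1) p.2 q.2) 0 (blk σ κ D)).submatrix (Equiv.sumProdDistrib ι κ (Fin n))
        (Equiv.sumProdDistrib ι κ (Fin n)) := by
    ext ⟨i | i, a⟩ ⟨j | j, b⟩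
    · simp [blk_apply]
    · simp [blk_apply]
    · simp [blk_apply]
    · simp [blk_apply]
  rw [dt_eq, h, Matrix.det_submatrix_equiv_self, Matrix.det_fromBlocks_zero₂₁, dt_eq, dt_eq]

theorem dt_blocks' (A : Matrix ι ι B) (Y : Matrix κ ι B) (D : Matrix κ κ B) :
    dt σ (Matrix.fromBlocks A 0 Y D) = dt σ A * dt σ D := by
  have h : blk σ (ι ⊕ κ) (Matrix.fromBlocks A 0 Y D) =
      (Matrix.fromBlocks (blk σ ι A) 0 (Matrix.of fun (p : κ × Fin n) (q : ι × Fin n) =>
        σ (Y p.1 q.1) p.2 q.2) (blk σ κ D)).submatrix (Equiv.sumProdDistrib ι κ (Fin n))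
        (Equiv.sumProdDistrib ι κ (Fin n)) := by
    ext ⟨i | i, a⟩ ⟨j | j, b⟩
    · simp [blk_apply]
    · simp [blk_apply]
    · simp [blk_apply]
    · simp [blk_apply]
  rw [dt_eq, h, Matrix.det_submatrix_equiv_self, Matrix.det_fromBlocks_zero₁₂, dt_eq, dt_eq]

theorem dt_reindex (e : ι ≃ κ) (G : Matrix ι ι B) : dt σ (Matrix.reindex e e G) = dt σ G := by
  have h : blk σ κ (Matrix.reindex e e G) =
      Matrix.reindex (e.prodCongr (Equiv.refl (Fin n))) (e.prodCongr (Equiv.refl (Fin n)))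
        (blk σ ι G) := by
    ext ⟨i, a⟩ ⟨j, b⟩
    simp [blk_apply]
  rw [dt_eq, h, Matrix.det_reindex_self, dt_eq]

/-- scalar matrices -/
theorem dt_scalar (b : B) (c : L) (hc : σ b = c • (1 : Matrix (Fin n) (Fin n) L)) :
    dt σ (Matrix.diagonal (fun _ : ι => b)) = c ^ (Fintype.card ι * n) := by
  have h : blk σ ι (Matrix.diagonal (fun _ : ι => b)) = c • 1 := by
    ext ⟨i, a⟩ ⟨j, d⟩
    rw [blk_apply]
    by_cases hij : i = j
    · subst hij
      rw [Matrix.diagonal_apply_eq, hc]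
      by_cases had : a = d
      · subst had
        simp
      · have h1 : (i, a) ≠ (i, d) := fun h2 => had (Prod.ext_iff.1 h2).2
        simp [Matrix.one_apply_ne had, Matrix.one_apply_ne h1]
    · have h1 : (i, a) ≠ (j, d) := fun h2 => hij (Prod.ext_iff.1 h2).1
      rw [Matrix.diagonal_apply_ne _ hij, map_zero]
      simp [Matrix.one_apply_ne h1]
  rw [dt_eq, h, Matrix.det_smul, Matrix.det_one, mul_one, Fintype.card_prod, Fintype.card_fin]

/-- a one by one matrix -/
theorem dt_unit' (b : B) : dt σ (Matrix.of (fun (_ _ : Unit) => b)) = (σ b).det := by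
  have h : blk σ Unit (Matrix.of (fun (_ _ : Unit) => b)) =
      Matrix.submatrix (σ b) (Equiv.punitProd (Fin n)) (Equiv.punitProd (Fin n)) := by
    ext ⟨i, a⟩ ⟨j, d⟩
    rfl
  rw [dt_eq, h, Matrix.det_submatrix_equiv_self]

theorem dt_ne_zero_of_isUnit (G : Matrix ι ι B) (h : IsUnit G) : dt σ G ≠ 0 := by
  have h1 : IsUnit (blk σ ι G) := h.map (blk σ ι)
  rw [dt_eq]
  exact ((Matrix.isUnit_iff_isUnit_det _).1 h1).ne_zero

theorem inj_of_dt (hσ : Function.Injective σ) (G : Matrix ι ι B) (h : dt σ G ≠ 0) :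
    Function.Injective G.vecMulLinear := by
  rw [injective_iff_map_eq_zero]
  intro v hv
  have hv' : v ᵥ* G = 0 := hv
  have hW : (Matrix.of fun (a : Fin n) (p : ι × Fin n) => σ (v p.1) a p.2) * blk σ ι G = 0 := by
    ext a ⟨j, b⟩
    have h1 : (σ ((v ᵥ* G) j)) a b = 0 := by
      rw [hv']
      simp
    have h2 : (v ᵥ* G) j = ∑ i, v i * G i j := rfl
    rw [h2, map_sum] at h1
    rw [Matrix.mul_apply, Fintype.sum_prod_type, Matrix.zero_apply, ← h1, Matrix.sum_apply]
    refine Finset.sum_congr rfl fun i _ => ?_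
    rw [map_mul, Matrix.mul_apply]
    rfl
  have hu : IsUnit (blk σ ι G).det := isUnit_iff_ne_zero.2 h
  have h3 : (Matrix.of fun (a : Fin n) (p : ι × Fin n) => σ (v p.1) a p.2) = 0 := by
    have h4 := congrArg (fun M => M * (blk σ ι G)⁻¹) hW
    simpa [Matrix.mul_assoc, Matrix.mul_nonsing_inv _ hu] using h4
  funext i
  apply hσ
  rw [Pi.zero_apply, map_zero]
  ext a b
  exact congrFun (congrFun h3 a) (i, b)

end

end Pool.Agent.SLone
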