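import Pool.Agent.SLone.Defs

/-! Devissage: if all modules killed by a prime containing `a` have trivial invariant then so have
all modules killed by `a`. -/

namespace Pool.Agent.SLone

universe u

section
variable {R : Type u} [CommRing R] [IsNoetherianRing R] [IsDomain R]
  {B : Type u} [Ring B] [Algebra R B] [Module.Finite R B] {G : Type u} [CommGroup G]

theorem devissage (Δ : DeltaFn R B G) (a : Ideal R) (ha : a ≠ ⊥)
    (h : ∀ q : Ideal R, q.IsPrime → a ≤ q → ∀ (N : Type u) [AddCommGroup N] [Module B N]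
      [Module.Finite B N], Killed R B q N → Δ.δ N = 1)
    (N : Type u) [AddCommGroup N] [Module B N] [Module.Finite B N] (hN : Killed R B a N) :
    Δ.δ N = 1 := by
  classical
  obtain ⟨r₀, hr₀, hr₀'⟩ := (Submodule.ne_bot_iff a).1 ha
  -- B is a noetherian ring
  have hBR : IsNoetherian R B := isNoetherian_of_isNoetherianRing_of_finite R B
  have hBB : IsNoetherian B B := isNoetherian_of_tower R hBR
  have hNN : IsNoetherian B N := isNoetherian_of_isNoetherianRing_of_finite B N
  have hbot : Δ.δ (⊥ : Submodule B N) = 1 := by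
    have h1 := Δ.add (N' := (⊥ : Submodule B N)) (N := (⊥ : Submodule B N))
      (N'' := (⊥ : Submodule B N)) ⟨r₀, hr₀', fun x => Subsingleton.elim _ _⟩
      LinearMap.id LinearMap.id Function.injective_id Function.surjective_id (by
        intro x
        exact ⟨fun _ => ⟨x, rfl⟩, fun _ => Subsingleton.elim _ _⟩)
    exact (left_eq_mul.1 h1)
  obtain ⟨L, hL, hmax⟩ := set_has_maximal_iff_noetherian.2 hNN
    {L : Submodule B N | Δ.δ L = 1} ⟨⊥, hbot⟩
  by_cases hLtop : L = ⊤
  · have h1 : Δ.δ (⊤ : Submodule B N) = 1 := by rw [← hLtop]; exact hL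
    rw [← h1]
    exact Δ.congr Submodule.topEquiv.symm
  exfalso
  let _ : Module R (N ⧸ L) := Module.compHom (N ⧸ L) (algebraMap R B)
  have hsmul : ∀ (r : R) (y : N ⧸ L), r • y = algebraMap R B r • y := fun _ _ => rfl
  have : Nontrivial (N ⧸ L) := Submodule.Quotient.nontrivial_iff.2 hLtop
  obtain ⟨q, hq⟩ := associatedPrimes.nonempty R (N ⧸ L)
  obtain ⟨hqp, x, hx⟩ := (Submodule.isAssociatedPrime_iff (N := (⊥ : Submodule R (N ⧸ L)))).1 hq
  have hmem : ∀ r : R, r ∈ q ↔ algebraMap R B r • x = 0 := by
    intro r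
    rw [hx, Submodule.mem_colon_singleton, Submodule.mem_bot, hsmul]
  have hx0 : x ≠ 0 := by
    intro h0
    apply hqp.ne_top
    rw [Ideal.eq_top_iff_one, hmem, h0, smul_zero]
  have haq : a ≤ q := by
    intro r hr
    rw [hmem]
    obtain ⟨y, rfl⟩ := Submodule.Quotient.mk_surjective L x
    rw [← Submodule.Quotient.mk_smul, hN r hr y, Submodule.Quotient.mk_zero]
  -- the elements killed by `q`
  let K : Submodule B (N ⧸ L) :=
    { carrier := {y | ∀ r ∈ q, algebraMap R B r • y = 0}
      zero_mem' := fun r _ => smul_zero _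
      add_mem' := fun {y z} hy hz r hr => by rw [smul_add, hy r hr, hz r hr, add_zero]
      smul_mem' := fun b y hy r hr => by
        rw [smul_smul, Algebra.commutes r b, ← smul_smul, hy r hr, smul_zero] }
  have hxK : x ∈ K := fun r hr => (hmem r).1 hr
  have hKfin : Module.Finite B K := by
    have : IsNoetherian B (N ⧸ L) := inferInstance
    infer_instance
  have hK1 : Δ.δ K = 1 := h q hqp haq K (fun r hr y => Subtype.ext (y.2 r hr))
  -- the preimage
  let L' : Submodule B N := K.comap L.mkQ
  have hLL' : L ≤ L' := by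
    intro y hy
    have h0 : L.mkQ y = 0 := (Submodule.Quotient.mk_eq_zero L).2 hy
    change L.mkQ y ∈ K
    rw [h0]
    exact zero_mem _
  have hL'1 : Δ.δ L' = 1 := by
    let p : L' →ₗ[B] K := (L.mkQ.comp L'.subtype).codRestrict K (fun y => y.2)
    have hadd := Δ.add (N' := L) (N := L') (N'' := K)
      ⟨r₀, hr₀', fun y => Subtype.ext (hN r₀ hr₀ y)⟩
      (Submodule.inclusion hLL') p (Submodule.inclusion_injective hLL') (by
        rintro ⟨y, hy⟩
        obtain ⟨z, rfl⟩ := Submodule.Quotient.mk_surjective L y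
        exact ⟨⟨z, hy⟩, rfl⟩) (by
        intro y
        constructor
        · intro hy
          have h1 : L.mkQ y = 0 := congrArg Subtype.val hy
          exact ⟨⟨y, (Submodule.Quotient.mk_eq_zero L).1 h1⟩, rfl⟩
        · rintro ⟨z, rfl⟩
          apply Subtype.ext
          exact (Submodule.Quotient.mk_eq_zero L).2 z.2)
    rw [hadd, show Δ.δ L = 1 from hL, hK1, mul_one]
  have hlt : L < L' := by
    refine lt_of_le_of_ne hLL' ?_
    intro heq
    obtain ⟨z, rfl⟩ := Submodule.Quotient.mk_surjective L x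
    apply hx0
    rw [Submodule.Quotient.mk_eq_zero, heq]
    exact hxK
  exact hmax L' hL'1 hlt

end

end Pool.Agent.SLone
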