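import Pool.Agent.PurNrd.Ufd
import Pool.Agent.PurNrd.Nrd
import Pool.Agent.PurNrd.Length
import Pool.Agent.SLone.Det

/-! Preparations for the final theorem: denominators, determinants of one by one matrices, lengths
of cokernels. -/

namespace Pool.Agent.SLone

open Module TensorProduct Matrix Pool.Agent.PurNrd

universe u

section
variable {R : Type u} [CommRing R] {B : Type u} [Ring B] [Algebra R B]

/-- clearing denominators in `K ⊗ B` -/
theorem exists_denom {K : Type u} [Field K] [Algebra R K] [IsFractionRing R K] [IsDomain R]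
    (b : K ⊗[R] B) : ∃ (r : R) (a : B), r ≠ 0 ∧ (algebraMap R K r) • b = (1 : K) ⊗ₜ[R] a := by
  induction b using TensorProduct.induction_on with
  | zero => exact ⟨1, 0, one_ne_zero, by simp⟩
  | tmul k x =>
    obtain ⟨⟨a, s⟩, h⟩ := IsLocalization.surj (nonZeroDivisors R) k
    refine ⟨s, a • x, nonZeroDivisors.coe_ne_zero s, ?_⟩
    rw [TensorProduct.smul_tmul', smul_eq_mul, mul_comm, h, ← TensorProduct.smul_tmul,
      Algebra.smul_def, mul_one]
  | add x y hx hy =>
    obtain ⟨r, a, hr, h⟩ := hx
    obtain ⟨r', a', hr', h'⟩ := hy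
    refine ⟨r * r', r' • a + r • a', mul_ne_zero hr hr', ?_⟩
    have e1 : (algebraMap R K (r * r')) • x = (1 : K) ⊗ₜ[R] (r' • a) := by
      rw [map_mul, mul_comm, mul_smul, h, TensorProduct.smul_tmul', ← TensorProduct.smul_tmul,
        smul_eq_mul, mul_one, Algebra.smul_def, mul_one]
    have e2 : (algebraMap R K (r * r')) • y = (1 : K) ⊗ₜ[R] (r • a') := by
      rw [map_mul, mul_smul, h', TensorProduct.smul_tmul', ← TensorProduct.smul_tmul,
        smul_eq_mul, mul_one, Algebra.smul_def, mul_one]
    rw [smul_add, e1, e2, TensorProduct.tmul_add]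

/-- the block determinant of a one by one matrix and the determinant over `R` -/
theorem det_one_by_one [IsDomain R] [Module.Finite R B] [Module.Free R B]
    {K : Type u} [Field K] [Algebra R K] [IsFractionRing R K] {L : Type u} [Field L] [Algebra K L]
    {n : ℕ} (φ : (L ⊗[K] (K ⊗[R] B)) ≃ₐ[L] Matrix (Fin n) (Fin n) L) (a : B) :
    algebraMap K L (algebraMap R K (LinearMap.det
      ((Matrix.vecMulLinear (Matrix.of (fun (_ _ : Unit) => a)) :
        (Unit → B) →ₗ[B] (Unit → B)).restrictScalars R))) =
      (φ (1 ⊗ₜ (1 ⊗ₜ a))).det ^ n := by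
  have h1 : LinearMap.det ((Matrix.vecMulLinear (Matrix.of (fun (_ _ : Unit) => a)) :
        (Unit → B) →ₗ[B] (Unit → B)).restrictScalars R) =
      LinearMap.det (LinearMap.mulRight R a) := by
    rw [← LinearMap.det_conj _ (LinearEquiv.funUnique Unit R B)]
    congr 1
    ext x
    simp [Matrix.vecMul, dotProduct]
  have h2 : algebraMap R K (LinearMap.det (LinearMap.mulRight R a)) =
      LinearMap.det (LinearMap.mulRight K ((1 : K) ⊗ₜ[R] a)) := by
    rw [← LinearMap.det_baseChange]
    congr 1
    ext x
    simp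
  rw [h1, h2, det_mulRight_eq φ]

/-- an injective endomorphism of a finite free module over a domain has a quasi-inverse -/
theorem exists_adj' {F : Type u} [IsDomain R] [AddCommGroup F] [Module R F]
    [Module.Finite R F] [Module.Free R F] (f : F →ₗ[R] F) (hf : Function.Injective f) :
    ∃ (d : R) (g : F →ₗ[R] F), d ≠ 0 ∧ ∀ x, f (g x) = d • x := by
  classical
  let b := Module.Free.chooseBasis R F
  refine ⟨LinearMap.det f, Matrix.toLin b b (LinearMap.toMatrix b b f).adjugate, ?_, fun x => ?_⟩
  · intro h
    exact LinearMap.det_eq_zero_iff_ker_ne_bot.1 h (LinearMap.ker_eq_bot.2 hf)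
  · have h1 : f ∘ₗ Matrix.toLin b b (LinearMap.toMatrix b b f).adjugate =
        LinearMap.det f • LinearMap.id := by
      conv_lhs => rw [← Matrix.toLin_toMatrix b b f]
      rw [← Matrix.toLin_mul b b b, LinearMap.toMatrix_toLin, Matrix.mul_adjugate, map_smul,
        Matrix.toLin_one, LinearMap.det_toMatrix]
    exact LinearMap.congr_fun h1 x

/-- the local length of the cokernel of a matrix -/
theorem lp_coker_eq [IsDomain R] [Module.Finite R B] [Module.Free R B] (O : Type u) [CommRing O]
    [IsDomain O] [IsPrincipalIdealRing O] [Algebra R O] [Module.Flat R O]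
    {ι : Type} [Fintype ι] [DecidableEq ι] (G : Matrix ι ι B)
    (hG : Function.Injective G.vecMulLinear) :
    lp (R := R) O (Coker G) =
      Ring.ord O (algebraMap R O (LinearMap.det (G.vecMulLinear.restrictScalars R))) := by
  rw [← lp_coker O (G.vecMulLinear.restrictScalars R) hG]
  exact (lp_congr O (Submodule.Quotient.restrictScalarsEquiv R
    (LinearMap.range G.vecMulLinear))).symm

end

end Pool.Agent.SLone
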