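import Pool.Agent.PurNrd.Lift

/-! Finitely generated projective modules over an Azumaya algebra over a semilocal domain whose
rank is a multiple of the rank of the algebra are free. -/

namespace Pool.Agent.SLone

open Module TensorProduct

universe u

private theorem finrank_quot {C : Type u} [CommRing C] [IsDomain C] (M : Type u) [AddCommGroup M]
    [Module C M] [Module.Finite C M] [Module.Projective C M] (P : Ideal C) [hP : P.IsMaximal] :
    finrank (C ⧸ P) ((C ⧸ P) ⊗[C] M) = finrank C M := by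
  let _ : Field (C ⧸ P) := Ideal.Quotient.field P
  have h1 : finrank P.ResidueField (P.Fiber M) = finrank C M := Ideal.finrank_fiber_eq_finrank P
  have h2 : finrank P.ResidueField (P.ResidueField ⊗[C ⧸ P] ((C ⧸ P) ⊗[C] M)) =
      finrank P.ResidueField (P.Fiber M) :=
    (AlgebraTensorModule.cancelBaseChange C (C ⧸ P) P.ResidueField P.ResidueField M).finrank_eq
  have h3 : finrank P.ResidueField (P.ResidueField ⊗[C ⧸ P] ((C ⧸ P) ⊗[C] M)) =
      finrank (C ⧸ P) ((C ⧸ P) ⊗[C] M) := Module.finrank_baseChange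
  rw [← h1, ← h2, h3]

/-- Nakayama over all maximal ideals -/
private theorem eq_top_of_quot {C : Type u} [CommRing C] {M : Type u} [AddCommGroup M]
    [Module C M] [Module.Finite C M] (N : Submodule C M)
    (h : ∀ (P : MaximalSpectrum C), ∀ m : M, ∃ n ∈ N,
      ((1 : C ⧸ P.1) ⊗ₜ[C] m : (C ⧸ P.1) ⊗[C] M) = 1 ⊗ₜ[C] n) : N = ⊤ := by
  have hA : Module.annihilator C (M ⧸ N) = ⊤ := by
    by_contra hA
    obtain ⟨P, hP, hAP⟩ := Ideal.exists_le_maximal _ hA
    have h1 : (⊤ : Submodule C (M ⧸ N)) ≤ P • ⊤ := by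
      intro q _
      obtain ⟨m, rfl⟩ := N.mkQ_surjective q
      obtain ⟨n, hn, hmn⟩ := h ⟨P, hP⟩ m
      have h2 : m - n ∈ P • (⊤ : Submodule C M) := by
        have h3 := congrArg (quotTensorEquivQuotSMul M P) hmn
        rw [quotTensorEquivQuotSMul_mk_one_tmul, quotTensorEquivQuotSMul_mk_one_tmul] at h3
        exact (Submodule.Quotient.eq _).1 h3
      have h4 : N.mkQ m = N.mkQ (m - n) := by
        rw [map_sub]
        have : N.mkQ n = 0 := by simpa using hn
        rw [this, sub_zero]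
      rw [h4]
      have h5 : Submodule.map N.mkQ (P • (⊤ : Submodule C M)) ≤ P • ⊤ := by
        rw [Submodule.map_smul'']
        exact Submodule.smul_mono le_rfl le_top
      exact h5 (Submodule.mem_map_of_mem h2)
    obtain ⟨r, hr, hr2⟩ := Submodule.exists_sub_one_mem_and_smul_eq_zero_of_fg_of_le_smul P
      (⊤ : Submodule C (M ⧸ N)) Module.Finite.fg_top h1
    have h6 : r ∈ P := hAP (Module.mem_annihilator.2 fun q => hr2 q trivial)
    have h7 : (1 : C) ∈ P := by
      have h8 := P.sub_mem h6 hr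
      simpa using h8
    exact hP.ne_top ((Ideal.eq_top_iff_one P).2 h7)
  have h1 : (1 : C) ∈ Module.annihilator C (M ⧸ N) := by rw [hA]; trivial
  rw [eq_top_iff]
  intro m _
  have h2 := Module.mem_annihilator.1 h1 (N.mkQ m)
  rw [one_smul] at h2
  simpa using h2

section
variable {R : Type u} [CommRing R] [IsLocalRing R] {B : Type u} [Ring B] [Algebra R B]
  [IsAzumaya R B]

/-- generators modulo a maximal ideal -/
private theorem exists_gen {C : Type u} [CommRing C] [IsDomain C] [Algebra R C]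
    (M : Type u) [AddCommGroup M] [Module (C ⊗[R] B) M] [Module C M]
    [IsScalarTower C (C ⊗[R] B) M] [Module.Finite C M] [Module.Projective C M] (r : ℕ)
    (hr : finrank C M = r * finrank R B) (P : MaximalSpectrum C) :
    ∃ l : Fin r → (C ⧸ P.1) ⊗[C] M, ∀ y : (C ⧸ P.1) ⊗[C] M, ∃ b : Fin r → C ⊗[R] B,
      ∀ m : Fin r → M, (∀ i, (1 : C ⧸ P.1) ⊗ₜ[C] m i = l i) →
        y = (1 : C ⧸ P.1) ⊗ₜ[C] (∑ i, b i • m i) := by
  classical
  have hfB : Module.Free R B := PurNrd.free_of_azumaya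
  let _ : Field (C ⧸ P.1) := Ideal.Quotient.field P.1
  have hs0 : IsSimpleRing ((C ⧸ P.1) ⊗[R] B) := PurNrd.isSimpleRing_baseChange (C ⧸ P.1)
  let e : ((C ⧸ P.1) ⊗[R] B) ≃ₐ[C ⧸ P.1] ((C ⧸ P.1) ⊗[C] (C ⊗[R] B)) :=
    AlgEquiv.ofLinearEquiv
      (AlgebraTensorModule.cancelBaseChange R C (C ⧸ P.1) (C ⧸ P.1) B).symm
      (by simp [Algebra.TensorProduct.one_def]) <|
      LinearMap.map_mul_of_map_mul_tmul (fun _ _ _ _ ↦ by simp)
  have hs : IsSimpleRing ((C ⧸ P.1) ⊗[C] (C ⊗[R] B)) :=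
    IsSimpleRing.of_ringEquiv e.toRingEquiv hs0
  let _ : Module ((C ⧸ P.1) ⊗[C] (C ⊗[R] B)) ((C ⧸ P.1) ⊗[C] M) :=
    Module.compHom _ (PurNrd.act (C ⧸ P.1) M).toRingHom
  have hsm : ∀ (c : (C ⧸ P.1) ⊗[C] (C ⊗[R] B)) (x : (C ⧸ P.1) ⊗[C] M),
      c • x = PurNrd.act (C ⧸ P.1) M c x := fun c x => rfl
  have : IsScalarTower (C ⧸ P.1) ((C ⧸ P.1) ⊗[C] (C ⊗[R] B)) ((C ⧸ P.1) ⊗[C] M) :=
    ⟨fun f c x => by rw [hsm, hsm, map_smul]; rfl⟩
  have hd1 : finrank (C ⧸ P.1) ((C ⧸ P.1) ⊗[C] (C ⊗[R] B)) = finrank R B := by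
    rw [Module.finrank_baseChange, Module.finrank_baseChange]
  have hd : finrank (C ⧸ P.1) (Fin r → (C ⧸ P.1) ⊗[C] (C ⊗[R] B)) =
      finrank (C ⧸ P.1) ((C ⧸ P.1) ⊗[C] M) := by
    have hP := P.2
    rw [Module.finrank_pi_fintype, finrank_quot M P.1, hr]
    simp [hd1]
  obtain ⟨ψ⟩ := PurNrd.equiv_of_finrank (F := C ⧸ P.1) (S := (C ⧸ P.1) ⊗[C] (C ⊗[R] B)) hd
  have hsurjB : ∀ y : (C ⧸ P.1) ⊗[C] (C ⊗[R] B), ∃ x : C ⊗[R] B, (1 : C ⧸ P.1) ⊗ₜ[C] x = y :=
    TensorProduct.mk_surjective C (C ⊗[R] B) (C ⧸ P.1) Ideal.Quotient.mk_surjective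
  refine ⟨fun i => ψ (Pi.single i 1), fun y => ?_⟩
  obtain ⟨s, rfl⟩ := ψ.surjective y
  choose b hb using fun i : Fin r => hsurjB (s i)
  refine ⟨b, fun m hm => ?_⟩
  have hs1 : s = ∑ i, s i • (Pi.single i (1 : (C ⧸ P.1) ⊗[C] (C ⊗[R] B)) :
      Fin r → (C ⧸ P.1) ⊗[C] (C ⊗[R] B)) := by
    ext i
    simp [Finset.sum_apply, Pi.single_apply]
  rw [hs1, map_sum, TensorProduct.tmul_sum]
  refine Finset.sum_congr rfl fun i _ => ?_
  have hmi : ψ (Pi.single i 1) = (1 : C ⧸ P.1) ⊗ₜ[C] m i := (hm i).symm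
  rw [map_smul, hmi, ← hb, hsm, PurNrd.act_tmul, one_mul]

theorem free_of_rank {C : Type u} [CommRing C] [IsDomain C] [IsNoetherianRing C] [Algebra R C]
    [Finite (MaximalSpectrum C)] (M : Type u) [AddCommGroup M] [Module (C ⊗[R] B) M] [Module C M]
    [IsScalarTower C (C ⊗[R] B) M] [Module.Finite C M] [Module.Projective C M] (r : ℕ)
    (hr : finrank C M = r * finrank R B) :
    Nonempty ((Fin r → C ⊗[R] B) ≃ₗ[C ⊗[R] B] M) := by
  classical
  have hfB : Module.Free R B := PurNrd.free_of_azumaya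
  have hS : finrank C (C ⊗[R] B) = finrank R B := Module.finrank_baseChange
  have hfr : finrank C (Fin r → C ⊗[R] B) = finrank C M := by
    rw [Module.finrank_pi_fintype, hr]
    simp [hS]
  choose l hl using exists_gen (R := R) (B := B) M r hr
  choose m hm using fun i : Fin r => Ideal.pi_tensorProductMk_quotient_surjective M
    (fun P : MaximalSpectrum C => P.1) (fun _ _ ne => Ideal.isCoprime_of_isMaximal
      (MaximalSpectrum.ext_iff.ne.mp ne)) fun P => l P i
  have hm' : ∀ (P : MaximalSpectrum C) i, (1 : C ⧸ P.1) ⊗ₜ[C] m i = l P i := fun P i =>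
    congrFun (hm i) P
  let h : (Fin r → C ⊗[R] B) →ₗ[C ⊗[R] B] M := Fintype.linearCombination (C ⊗[R] B) m
  have hh : ∀ b, h b = ∑ i, b i • m i := fun b => by
    simp [h, Fintype.linearCombination_apply]
  have htop : LinearMap.range (h.restrictScalars C) = ⊤ := by
    refine eq_top_of_quot _ fun P y => ?_
    obtain ⟨b, hb⟩ := hl P (1 ⊗ₜ[C] y)
    exact ⟨h b, ⟨b, rfl⟩, by rw [hb m (hm' P), hh]⟩
  have hsur : Function.Surjective (h.restrictScalars C) := LinearMap.range_eq_top.1 htop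
  have hinj : LinearMap.ker (h.restrictScalars C) = ⊥ := by
    have h1 := Submodule.finrank_quotient_add_finrank (LinearMap.ker (h.restrictScalars C))
    rw [((h.restrictScalars C).quotKerEquivOfSurjective hsur).finrank_eq, hfr] at h1
    exact Submodule.finrank_eq_zero.1 (by omega)
  have hinj' : Function.Injective (h.restrictScalars C) := LinearMap.ker_eq_bot.1 hinj
  exact ⟨LinearEquiv.ofBijective h ⟨hinj', hsur⟩⟩

theorem free_of_rank_R [IsDomain R] [IsNoetherianRing R] (M : Type u) [AddCommGroup M] [Module B M]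
    [Module R M] [IsScalarTower R B M] [Module.Finite R M] [Module.Projective R M] (r : ℕ)
    (hr : finrank R M = r * finrank R B) :
    Nonempty ((Fin r → B) ≃ₗ[B] M) := by
  have : Module.Free R M := Module.free_of_flat_of_isLocalRing
  exact PurNrd.free_of_rank M r hr

end

end Pool.Agent.SLone
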