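import Pool.Agent.SLone.Zero

/-! The invariant of torsion modules with a finite resolution: uniqueness and multiplicativity. -/

namespace Pool.Agent.SLone

open Matrix

universe u

section
variable {R : Type u} [CommRing R] [IsDomain R] [IsNoetherianRing R]
  {B : Type u} [Ring B] [Algebra R B] [Module.Finite R B] {L : Type u} [Field L] {n : ℕ}
  (σ : B →+* Matrix (Fin n) (Fin n) L) (U : Subgroup Lˣ)
variable {N' N N'' : Type u} [AddCommGroup N'] [Module B N'] [AddCommGroup N] [Module B N]
  [AddCommGroup N''] [Module B N'']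

private theorem del_succ_iff (d : ℕ) (x : Lˣ ⧸ U) :
    Del σ U (d + 1) N x ↔
      ∃ (P : Type u) (_ : AddCommGroup P) (_ : Module B P) (f : P →ₗ[B] N),
        Function.Surjective f ∧ ∃ y z : Lˣ ⧸ U,
          Del σ U 0 P y ∧ Del σ U d (LinearMap.ker f) z ∧ x = y / z := by
  simp only [Del]

private theorem del_zero_triv (M : Type u) [AddCommGroup M] [Module B M] [Subsingleton M] :
    Del σ U 0 M 1 := by
  have h1 : dt σ (1 : Matrix (Fin 0) (Fin 0) B) = 1 := dt_one σ
  have h : dt σ (1 : Matrix (Fin 0) (Fin 0) B) ≠ 0 := by rw [h1]; exact one_ne_zero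
  refine ⟨Fin 0, inferInstance, inferInstance, 1, h, ⟨?_⟩, ?_⟩
  · have : Subsingleton (Coker (1 : Matrix (Fin 0) (Fin 0) B)) := by
      unfold Coker
      infer_instance
    exact
      { toFun := fun _ => 0
        map_add' := fun _ _ => by simp
        map_smul' := fun _ _ => by simp
        invFun := fun _ => 0
        left_inv := fun _ => Subsingleton.elim _ _
        right_inv := fun _ => Subsingleton.elim _ _ }
  · have : Units.mk0 _ h = 1 := by
      ext
      simp [h1]
    rw [this]
    rfl

theorem del_mono (hσ : Function.Injective σ) (d : ℕ) {x : Lˣ ⧸ U} (h : Del σ U d N x) :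
    Del σ U (d + 1) N x := by
  induction d generalizing N x with
  | zero =>
    rw [del_succ_iff]
    have : Subsingleton (LinearMap.ker (LinearMap.id : N →ₗ[B] N)) := by
      rw [LinearMap.ker_id]
      infer_instance
    exact ⟨N, inferInstance, inferInstance, LinearMap.id, fun y => ⟨y, rfl⟩, x, 1, h,
      del_zero_triv σ U _, by simp⟩
  | succ d ih =>
    rw [del_succ_iff] at h ⊢
    obtain ⟨P, i1, i2, f, hf, y, z, hy, hz, hx⟩ := h
    exact ⟨P, i1, i2, f, hf, y, z, hy, ih hz, hx⟩

private theorem del_of_zero (hσ : Function.Injective σ) (d : ℕ) {x : Lˣ ⧸ U}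
    (h : Del σ U 0 N x) : Del σ U d N x := by
  induction d with
  | zero => exact h
  | succ d ih => exact del_mono σ U hσ d ih

/-- an injective endomorphism of a finitely generated module over a domain has torsion cokernel -/
private theorem exists_mul_mem_range {M : Type u} [AddCommGroup M] [Module R M] [Module.Finite R M]
    (g : M →ₗ[R] M) (hg : Function.Injective g) : ∃ r : R, r ≠ 0 ∧ ∀ m, r • m ∈ LinearMap.range g := by
  obtain ⟨p, hp, hp0⟩ := LinearMap.exists_monic_and_aeval_eq_zero R g
  have key : ∀ (k : ℕ) (p : Polynomial R), p.natDegree ≤ k → p ≠ 0 → Polynomial.aeval g p = 0 →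
      ∃ q : Polynomial R, q.coeff 0 ≠ 0 ∧ Polynomial.aeval g q = 0 := by
    intro k
    induction k with
    | zero =>
      intro p hk hp hp0
      refine ⟨p, ?_, hp0⟩
      intro h0
      apply hp
      rw [Polynomial.eq_C_of_natDegree_le_zero hk, h0, Polynomial.C_0]
    | succ k ih =>
      intro p hk hp hp0
      by_cases h0 : p.coeff 0 = 0
      · have hpX : p = Polynomial.X * p.divX := by
          conv_lhs => rw [← Polynomial.X_mul_divX_add p, h0]
          simp
        refine ih p.divX ?_ ?_ ?_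
        · rw [Polynomial.natDegree_divX_eq_natDegree_tsub_one]
          omega
        · intro h
          apply hp
          rw [hpX, h, mul_zero]
        · rw [hpX, map_mul, Polynomial.aeval_X] at hp0
          ext m
          have := LinearMap.congr_fun hp0 m
          rw [Module.End.mul_apply] at this
          apply hg
          rw [this]
          simp
      · exact ⟨p, h0, hp0⟩
  obtain ⟨q, hq, hq0⟩ := key _ p le_rfl hp.ne_zero hp0
  refine ⟨q.coeff 0, hq, fun m => ?_⟩
  have h1 : q = Polynomial.X * q.divX + Polynomial.C (q.coeff 0) := (Polynomial.X_mul_divX_add q).symm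
  have h2 := LinearMap.congr_fun hq0 m
  rw [h1, map_add, map_mul, Polynomial.aeval_X, Polynomial.aeval_C] at h2
  simp only [LinearMap.add_apply, Module.End.mul_apply, Module.algebraMap_end_apply,
    LinearMap.zero_apply] at h2
  refine ⟨- (Polynomial.aeval g q.divX) m, ?_⟩
  rw [map_neg]
  exact neg_eq_of_add_eq_zero_right h2


private theorem smul_mem_range {ι : Type} [Fintype ι] [DecidableEq ι] (r : R) (v : ι → B) :
    algebraMap R B r • v = (Matrix.diagonal (fun _ : ι => algebraMap R B r)).vecMulLinear v := by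
  ext i
  rw [Matrix.vecMulLinear_apply, Matrix.vecMul_diagonal, Pi.smul_apply, smul_eq_mul]
  exact Algebra.commutes r (v i)

private theorem finite_tors_coker (hσ : Function.Injective σ) {ι : Type} [Fintype ι]
    [DecidableEq ι] (G : Matrix ι ι B) (h : dt σ G ≠ 0) :
    Module.Finite B (Coker G) ∧ Tors R B (Coker G) := by
  refine ⟨inferInstance, ?_⟩
  obtain ⟨r, hr, hr'⟩ := exists_mul_mem_range (G.vecMulLinear.restrictScalars R)
    (inj_of_dt σ hσ G h)
  refine ⟨r, hr, fun x => ?_⟩
  obtain ⟨v, rfl⟩ := Submodule.Quotient.mk_surjective _ x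
  rw [← Submodule.Quotient.mk_smul, Submodule.Quotient.mk_eq_zero]
  obtain ⟨w, hw⟩ := hr' v
  refine ⟨w, ?_⟩
  rw [algebraMap_smul]
  exact hw

private theorem finite_tors_of_del (hσ : Function.Injective σ) {x : Lˣ ⧸ U}
    (h : Del σ U 0 N x) : Module.Finite B N ∧ Tors R B N := by
  obtain ⟨ι, i1, i2, G, hG, ⟨e⟩, -⟩ := h
  obtain ⟨h1, r, hr, h2⟩ := finite_tors_coker (R := R) σ hσ G hG
  refine ⟨Module.Finite.equiv e, r, hr, fun x => ?_⟩
  have := h2 (e.symm x)
  rw [← map_smul, LinearEquiv.map_eq_zero_iff] at this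
  exact this

theorem exists_cover
    (hR : ∀ r : R, r ≠ 0 → ∃ c : L, c ≠ 0 ∧
      σ (algebraMap R B r) = c • (1 : Matrix (Fin n) (Fin n) L))
    [Module.Finite B N] (hN : Tors R B N) :
    ∃ (P : Type u) (_ : AddCommGroup P) (_ : Module B P) (f : P →ₗ[B] N),
      Function.Surjective f ∧ (∃ y, Del σ U 0 P y) ∧ Module.Finite B P ∧ Tors R B P := by
  obtain ⟨r, hr, hrN⟩ := hN
  obtain ⟨c, hc, hc'⟩ := hR r hr
  obtain ⟨k, g, hg⟩ := Module.Finite.exists_fin' B N
  set D : Matrix (Fin k) (Fin k) B := Matrix.diagonal (fun _ => algebraMap R B r) with hD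
  have hdt : dt σ D ≠ 0 := by
    rw [hD, dt_scalar σ _ c hc']
    exact pow_ne_zero _ hc
  have hle : LinearMap.range D.vecMulLinear ≤ LinearMap.ker g := by
    rintro _ ⟨v, rfl⟩
    rw [LinearMap.mem_ker, ← smul_mem_range, map_smul, hrN]
  refine ⟨Coker D, inferInstance, inferInstance, (LinearMap.range D.vecMulLinear).liftQ g hle,
    ?_, ⟨QuotientGroup.mk (Units.mk0 _ hdt), Fin k, inferInstance, inferInstance, D, hdt,
      ⟨LinearEquiv.refl B _⟩, rfl⟩, inferInstance, r, hr, ?_⟩
  · intro x
    obtain ⟨v, rfl⟩ := hg x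
    exact ⟨Submodule.Quotient.mk v, Submodule.liftQ_apply _ _ _⟩
  · intro x
    obtain ⟨v, rfl⟩ := Submodule.Quotient.mk_surjective _ x
    rw [← Submodule.Quotient.mk_smul, Submodule.Quotient.mk_eq_zero, smul_mem_range]
    exact ⟨v, rfl⟩


private theorem tors_of_injective (f : N' →ₗ[B] N) (hf : Function.Injective f)
    (hN : Tors R B N) : Tors R B N' := by
  obtain ⟨r, hr, h⟩ := hN
  refine ⟨r, hr, fun x => hf ?_⟩
  rw [map_smul, h, map_zero]

private theorem tors_prod (h' : Tors R B N') (h : Tors R B N) : Tors R B (N' × N) := by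
  obtain ⟨r', hr', h'⟩ := h'
  obtain ⟨r, hr, h⟩ := h
  refine ⟨r * r', mul_ne_zero hr hr', fun x => ?_⟩
  refine Prod.ext ?_ ?_
  · rw [Prod.smul_fst, map_mul, mul_smul, h', smul_zero, Prod.fst_zero]
  · rw [Prod.smul_snd, mul_comm, map_mul, mul_smul, h, smul_zero, Prod.snd_zero]

private theorem group_id {G : Type u} [CommGroup G] (y' z' y'' z'' y₃ : G) :
    y' / z' * (y'' / z'') = y' * y₃ / (z' * (y₃ / y'' * z'')) := by
  rw [div_mul_div_comm, div_eq_div_iff_mul_eq_mul]
  have e : y'' * (y₃ / y'') = y₃ := mul_div_cancel y'' y₃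
  calc y' * y'' * (z' * (y₃ / y'' * z'')) = y' * (y'' * (y₃ / y'')) * (z' * z'') := by ac_rfl
    _ = y' * y₃ * (z' * z'') := by rw [e]

private theorem group_id' {G : Type u} [CommGroup G] (y z y' z' : G) (h : z' * y = z * y') :
    y / z = y' / z' := by
  rw [div_eq_div_iff_mul_eq_mul, mul_comm y z', h, mul_comm]

private theorem add_aux (hσ : Function.Injective σ)
    (hR : ∀ r : R, r ≠ 0 → ∃ c : L, c ≠ 0 ∧
      σ (algebraMap R B r) = c • (1 : Matrix (Fin n) (Fin n) L)) (d : ℕ) :
    ∀ {N' N N'' : Type u} [AddCommGroup N'] [Module B N'] [AddCommGroup N] [Module B N]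
      [AddCommGroup N''] [Module B N''] [Module.Finite B N] (_ : Tors R B N) {x' x'' : Lˣ ⧸ U}
      (i : N' →ₗ[B] N) (p : N →ₗ[B] N'') (_ : Function.Injective i) (_ : Function.Surjective p)
      (_ : Function.Exact i p) (_ : Del σ U d N' x') (_ : Del σ U d N'' x''),
      Del σ U d N (x' * x'') := by
  have hB : IsNoetherianRing B := isNoetherian_of_tower R inferInstance
  induction d with
  | zero =>
    intro N' N N'' _ _ _ _ _ _ _ hN x' x'' i p hi hp hip h' h''
    exact del_zero_add σ U hσ i p hi hp hip h' h''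
  | succ d ih =>
    intro N' N N'' _ _ _ _ _ _ _ hN x' x'' i p hi hp hip h' h''
    rw [del_succ_iff] at h' h''
    obtain ⟨P', _, _, f', hf', y', z', hy', hz', rfl⟩ := h'
    obtain ⟨P'', _, _, f'', hf'', y'', z'', hy'', hz'', rfl⟩ := h''
    obtain ⟨finP', torP'⟩ := finite_tors_of_del (R := R) σ U hσ hy'
    obtain ⟨finP'', torP''⟩ := finite_tors_of_del (R := R) σ U hσ hy''
    -- the fibre product
    set Q : Submodule B (N × P'') := LinearMap.eqLocus (p ∘ₗ LinearMap.fst B N P'')
      (f'' ∘ₗ LinearMap.snd B N P'') with hQ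
    have memQ : ∀ q : Q, p q.1.1 = f'' q.1.2 := fun q => q.2
    set qN : Q →ₗ[B] N := LinearMap.fst B N P'' ∘ₗ Q.subtype with hqN
    set qP : Q →ₗ[B] P'' := LinearMap.snd B N P'' ∘ₗ Q.subtype with hqP
    have comm : ∀ q : Q, p (qN q) = f'' (qP q) := memQ
    have qNs : Function.Surjective qN := by
      intro m
      obtain ⟨v, hv⟩ := hf'' (p m)
      exact ⟨⟨(m, v), hv.symm⟩, rfl⟩
    have qPs : Function.Surjective qP := by
      intro v
      obtain ⟨m, hm⟩ := hp (f'' v)
      exact ⟨⟨(m, v), hm⟩, rfl⟩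
    have torQ : Tors R B Q := tors_of_injective Q.subtype Subtype.val_injective
      (tors_prod hN torP'')
    obtain ⟨P₃, _, _, g, hg, ⟨y₃, hy₃⟩, finP₃, torP₃⟩ := exists_cover (R := R) σ U hR torQ
    -- the kernel of `P₃ → P''`
    set a : P₃ →ₗ[B] P'' := qP ∘ₗ g with ha
    have has : Function.Surjective a := qPs.comp hg
    have hK₄ : Del σ U 0 (LinearMap.ker a) (y₃ / y'') := del_zero_ker σ U hσ a has hy₃ hy''
    -- the kernel of `P₃ → N''`
    set b : P₃ →ₗ[B] N'' := f'' ∘ₗ a with hb
    have hK₃ : Del σ U d (LinearMap.ker b) (y₃ / y'' * z'') := by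
      refine ih (tors_of_injective (LinearMap.ker b).subtype Subtype.val_injective torP₃)
        (Submodule.inclusion (LinearMap.ker_le_ker_comp a f''))
        (a.restrict (p := LinearMap.ker b) (q := LinearMap.ker f'') (fun x hx => hx))
        (Submodule.inclusion_injective _) ?_ ?_ (del_of_zero σ U hσ d hK₄) hz''
      · rintro ⟨k, hk⟩
        obtain ⟨v, hv⟩ := has k
        refine ⟨⟨v, ?_⟩, Subtype.ext hv⟩
        rw [LinearMap.mem_ker, hb, LinearMap.comp_apply, hv]
        exact hk
      · rintro ⟨v, hv⟩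
        constructor
        · intro h
          have h0 : a v = 0 := congrArg Subtype.val h
          exact ⟨⟨v, h0⟩, rfl⟩
        · rintro ⟨⟨w, hw⟩, h⟩
          have : w = v := congrArg Subtype.val h
          subst this
          exact Subtype.ext hw
    -- the kernel of `P' × P₃ → N`
    set c : P' × P₃ →ₗ[B] N := (i ∘ₗ f').coprod (qN ∘ₗ g) with hc
    have hcs : Function.Surjective c := by
      intro m
      obtain ⟨v, hv⟩ := (qNs.comp hg) m
      refine ⟨(0, v), ?_⟩
      rw [hc, LinearMap.coprod_apply, map_zero, zero_add]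
      exact hv
    have hPP : Del σ U 0 (P' × P₃) (y' * y₃) := by
      refine del_zero_add σ U hσ (LinearMap.inl B P' P₃) (LinearMap.snd B P' P₃)
        LinearMap.inl_injective LinearMap.snd_surjective ?_ hy' hy₃
      exact Function.Exact.inl_snd
    have hK : Del σ U d (LinearMap.ker c) (z' * (y₃ / y'' * z'')) := by
      refine ih (tors_of_injective (LinearMap.ker c).subtype Subtype.val_injective
          (tors_prod torP' torP₃))
        ((LinearMap.inl B P' P₃ ∘ₗ (LinearMap.ker f').subtype).codRestrict (LinearMap.ker c) ?_)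
        ((LinearMap.snd B P' P₃).restrict (p := LinearMap.ker c) (q := LinearMap.ker b) ?_)
        ?_ ?_ ?_ hz' hK₃
      · rintro ⟨k, hk⟩
        rw [LinearMap.mem_ker] at hk ⊢
        simp [hc, hk]
      · rintro ⟨u, v⟩ hx
        rw [LinearMap.mem_ker, hc, LinearMap.coprod_apply] at hx
        have h1 := congrArg p hx
        rw [map_add, map_zero, LinearMap.comp_apply, hip.apply_apply_eq_zero, zero_add] at h1
        rw [LinearMap.mem_ker]
        have h2 := comm (g v)
        rw [← LinearMap.comp_apply qN g, h1] at h2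
        exact h2.symm
      · rintro ⟨k, hk⟩ ⟨k', hk'⟩ h
        have h1 : (k, (0 : P₃)) = (k', 0) := congrArg Subtype.val h
        exact Subtype.ext (congrArg Prod.fst h1)
      · rintro ⟨v, hv⟩
        have h1 : p ((qN ∘ₗ g) v) = 0 := by
          rw [LinearMap.comp_apply, comm]
          exact hv
        obtain ⟨m', hm'⟩ := (hip _).1 h1
        obtain ⟨u, hu⟩ := hf' (-m')
        refine ⟨⟨(u, v), ?_⟩, rfl⟩
        rw [LinearMap.mem_ker, hc, LinearMap.coprod_apply, LinearMap.comp_apply, hu, map_neg, hm']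
        exact neg_add_cancel _
      · rintro ⟨⟨u, v⟩, huv⟩
        constructor
        · intro h
          have h0 : v = 0 := congrArg Subtype.val h
          subst h0
          have h1 : i (f' u) = 0 := by
            have := huv
            rw [LinearMap.mem_ker, hc, LinearMap.coprod_apply, map_zero, add_zero] at this
            exact this
          have h2 : f' u = 0 := hi (by rw [h1, map_zero])
          exact ⟨⟨u, h2⟩, rfl⟩
        · rintro ⟨⟨w, hw⟩, h⟩
          have h1 : (w, (0 : P₃)) = (u, v) := congrArg Subtype.val h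
          have h2 : (0 : P₃) = v := congrArg Prod.snd h1
          exact Subtype.ext h2.symm
    rw [del_succ_iff]
    refine ⟨P' × P₃, inferInstance, inferInstance, c, hcs, _, _, hPP, hK, ?_⟩
    exact group_id y' z' y'' z'' y₃

theorem del_unique (hσ : Function.Injective σ) (hU : AutTriv σ U)
    (hR : ∀ r : R, r ≠ 0 → ∃ c : L, c ≠ 0 ∧
      σ (algebraMap R B r) = c • (1 : Matrix (Fin n) (Fin n) L))
    (d : ℕ) [Module.Finite B N] (hN : Tors R B N) {x x' : Lˣ ⧸ U}
    (h : Del σ U d N x) (h' : Del σ U d N x') : x = x' := by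
  have hB : IsNoetherianRing B := isNoetherian_of_tower R inferInstance
  revert x x' hN
  suffices H : ∀ (d : ℕ) {N : Type u} [AddCommGroup N] [Module B N] [Module.Finite B N]
      (_ : Tors R B N) {x x' : Lˣ ⧸ U} (_ : Del σ U d N x) (_ : Del σ U d N x'), x = x' from
    fun hN _ _ h h' => H d hN h h'
  clear d
  intro d
  induction d with
  | zero =>
    intro N _ _ _ _ x x' h h'
    exact del_zero_unique σ U hσ hU h h'
  | succ d ih =>
    intro N _ _ _ hN x x' h h'
    rw [del_succ_iff] at h h'
    obtain ⟨P, _, _, f, hf, y, z, hy, hz, rfl⟩ := h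
    obtain ⟨P', _, _, f', hf', y', z', hy', hz', rfl⟩ := h'
    obtain ⟨finP, torP⟩ := finite_tors_of_del (R := R) σ U hσ hy
    obtain ⟨finP', torP'⟩ := finite_tors_of_del (R := R) σ U hσ hy'
    set Q : Submodule B (P × P') := LinearMap.eqLocus (f ∘ₗ LinearMap.fst B P P')
      (f' ∘ₗ LinearMap.snd B P P') with hQ
    have torQ : Tors R B Q := tors_of_injective Q.subtype Subtype.val_injective
      (tors_prod torP torP')
    have memQ : ∀ q : Q, f q.1.1 = f' q.1.2 := fun q => q.2
    have h1 : Del σ U d Q (z' * y) := by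
      refine add_aux (R := R) σ U hσ hR d torQ
        ((LinearMap.inr B P P' ∘ₗ (LinearMap.ker f').subtype).codRestrict Q ?_)
        (LinearMap.fst B P P' ∘ₗ Q.subtype) ?_ ?_ ?_ hz' (del_of_zero σ U hσ d hy)
      · rintro ⟨k, hk⟩
        change f 0 = f' k
        rw [map_zero]
        exact hk.symm
      · rintro ⟨k, hk⟩ ⟨k', hk'⟩ h
        have h1 : ((0 : P), k) = (0, k') := congrArg Subtype.val h
        exact Subtype.ext (congrArg Prod.snd h1)
      · intro u
        obtain ⟨v, hv⟩ := hf' (f u)
        exact ⟨⟨(u, v), hv.symm⟩, rfl⟩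
      · rintro ⟨⟨u, v⟩, huv⟩
        constructor
        · intro h
          have h0 : u = 0 := h
          subst h0
          have h2 : f' v = 0 := by
            have : f 0 = f' v := huv
            rw [← this, map_zero]
          exact ⟨⟨v, h2⟩, rfl⟩
        · rintro ⟨⟨w, hw⟩, h⟩
          have h1 : ((0 : P), w) = (u, v) := congrArg Subtype.val h
          exact (congrArg Prod.fst h1).symm
    have h2 : Del σ U d Q (z * y') := by
      refine add_aux (R := R) σ U hσ hR d torQ
        ((LinearMap.inl B P P' ∘ₗ (LinearMap.ker f).subtype).codRestrict Q ?_)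
        (LinearMap.snd B P P' ∘ₗ Q.subtype) ?_ ?_ ?_ hz (del_of_zero σ U hσ d hy')
      · rintro ⟨k, hk⟩
        change f k = f' 0
        rw [map_zero]
        exact hk
      · rintro ⟨k, hk⟩ ⟨k', hk'⟩ h
        have h1 : (k, (0 : P')) = (k', 0) := congrArg Subtype.val h
        exact Subtype.ext (congrArg Prod.fst h1)
      · intro v
        obtain ⟨u, hu⟩ := hf (f' v)
        exact ⟨⟨(u, v), hu⟩, rfl⟩
      · rintro ⟨⟨u, v⟩, huv⟩
        constructor
        · intro h
          have h0 : v = 0 := h
          subst h0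
          have h2 : f u = 0 := by
            have : f u = f' 0 := huv
            rw [this, map_zero]
          exact ⟨⟨u, h2⟩, rfl⟩
        · rintro ⟨⟨w, hw⟩, h⟩
          have h1 : (w, (0 : P')) = (u, v) := congrArg Subtype.val h
          exact (congrArg Prod.snd h1).symm
    have h3 := ih torQ h1 h2
    exact group_id' y z y' z' h3

theorem del_add (hσ : Function.Injective σ) (hU : AutTriv σ U)
    (hR : ∀ r : R, r ≠ 0 → ∃ c : L, c ≠ 0 ∧
      σ (algebraMap R B r) = c • (1 : Matrix (Fin n) (Fin n) L))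
    (d : ℕ) [Module.Finite B N] (hN : Tors R B N) {x' x'' : Lˣ ⧸ U}
    (i : N' →ₗ[B] N) (p : N →ₗ[B] N'') (hi : Function.Injective i) (hp : Function.Surjective p)
    (hip : Function.Exact i p) (h' : Del σ U d N' x') (h'' : Del σ U d N'' x'') :
    Del σ U d N (x' * x'') :=
  add_aux (R := R) σ U hσ hR d hN i p hi hp hip h' h''

end

end Pool.Agent.SLone
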