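import Pool.Agent.SLone.Det

/-! Injective matrices over `B` have nonzero block determinant. -/

namespace Pool.Agent.SLone

open Matrix TensorProduct

universe u

/-- an injective endomorphism of a finite free module over a domain has a quasi-inverse -/
private theorem exists_adj {R F : Type u} [CommRing R] [IsDomain R] [AddCommGroup F] [Module R F]
    [Module.Finite R F] [Module.Free R F] (f : F →ₗ[R] F) (hf : Function.Injective f) :
    ∃ (d : R) (g : F →ₗ[R] F), d ≠ 0 ∧ ∀ x, f (g x) = d • x := by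
  classical
  let b := Module.Free.chooseBasis R F
  refine ⟨LinearMap.det f, Matrix.toLin b b (LinearMap.toMatrix b b f).adjugate, ?_, fun x => ?_⟩
  · intro h
    exact LinearMap.det_eq_zero_iff_ker_ne_bot.1 h (LinearMap.ker_eq_bot.2 hf)
  · have h1 : f ∘ₗ Matrix.toLin b b (LinearMap.toMatrix b b f).adjugate =
        LinearMap.det f • LinearMap.id := by
      conv_lhs => rw [← Matrix.toLin_toMatrix b b f]
      rw [← Matrix.toLin_mul b b b, LinearMap.toMatrix_toLin, Matrix.mul_adjugate, map_smul,
        Matrix.toLin_one, LinearMap.det_toMatrix]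
    exact LinearMap.congr_fun h1 x

theorem dt_ne_zero_of_injective {R : Type u} [CommRing R] [IsDomain R] {K : Type u} [Field K]
    [Algebra R K] [IsFractionRing R K] {B : Type u} [Ring B] [Algebra R B] [Module.Finite R B]
    [Module.Free R B] {L : Type u} [Field L] [Algebra K L] {n : ℕ}
    (φ : (L ⊗[K] (K ⊗[R] B)) ≃ₐ[L] Matrix (Fin n) (Fin n) L)
    (σ : B →+* Matrix (Fin n) (Fin n) L) (hφ : ∀ b, σ b = φ (1 ⊗ₜ (1 ⊗ₜ b)))
    (m : ℕ) (G : Matrix (Fin m) (Fin m) B) (hG : Function.Injective G.vecMulLinear) :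
    dt σ G ≠ 0 := by
  obtain ⟨d, g, hd, hg⟩ := exists_adj (G.vecMulLinear.restrictScalars R) hG
  have h1 : (Matrix.of fun i => g (Pi.single i 1)) * G =
      Matrix.diagonal (fun _ : Fin m => algebraMap R B d) := by
    ext i j
    have h2 : (g (Pi.single i 1)) ᵥ* G = d • (Pi.single i 1 : Fin m → B) := hg (Pi.single i 1)
    have h3 := congrFun h2 j
    rw [Matrix.mul_apply_eq_vecMul]
    refine h3.trans ?_
    rw [Pi.smul_apply, Matrix.diagonal_apply, Pi.single_apply, Algebra.algebraMap_eq_smul_one]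
    split_ifs with h4 h5 h5
    · rfl
    · exact absurd h4.symm h5
    · exact absurd h5.symm h4
    · exact smul_zero d
  have h2 : σ (algebraMap R B d) =
      algebraMap K L (algebraMap R K d) • (1 : Matrix (Fin n) (Fin n) L) := by
    rw [hφ, Algebra.algebraMap_eq_smul_one, TensorProduct.tmul_smul,
      ← algebraMap_smul K d ((1 : K) ⊗ₜ[R] (1 : B)), TensorProduct.tmul_smul,
      ← algebraMap_smul L (algebraMap R K d) ((1 : L) ⊗ₜ[K] ((1 : K) ⊗ₜ[R] (1 : B))), map_smul,
      ← Algebra.TensorProduct.one_def, ← Algebra.TensorProduct.one_def, map_one]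
  intro h0
  have h3 := congrArg (dt σ) h1
  rw [dt_mul, h0, mul_zero, dt_scalar σ _ _ h2] at h3
  have h4 : algebraMap K L (algebraMap R K d) ≠ 0 := by
    rw [Ne, map_eq_zero, FaithfulSMul.algebraMap_eq_zero_iff]
    exact hd
  exact pow_ne_zero _ h4 h3.symm

end Pool.Agent.SLone
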