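import Mathlib

/-! `avoid` (S2) and `ker_not_le_sq` (S3a) of `SurfA.lean`. -/

namespace Pool.Agent.SLone

open IsLocalRing

universe u

/-- S2 -/
theorem avoid {A : Type u} [CommRing A] {ι : Type*} [Finite ι] (I : ι → Ideal A)
    (hI : Pairwise fun i j => IsCoprime (I i) (I j)) (J : Ideal A) (h : ∀ i, ¬ J ≤ I i) :
    ∃ g ∈ J, ∀ i, g ∉ I i := by
  classical
  cases nonempty_fintype ι
  have h1 : ∀ i, ∃ a ∈ J, a ∉ I i := fun i => Set.not_subset.1 (h i)
  choose a ha ha' using h1
  have h2 : ∀ i, ∃ r : A, ∀ j, r - (if j = i then (1 : A) else 0) ∈ I j := fun i =>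
    Ideal.exists_forall_sub_mem_ideal hI _
  choose e he using h2
  refine ⟨∑ i, a i * e i, J.sum_mem fun i _ => J.mul_mem_right _ (ha i), fun j hj => ha' j ?_⟩
  have h3 : ∑ i, a i * e i - a j = ∑ i, a i * (e i - if j = i then (1 : A) else 0) := by
    simp [mul_sub, Finset.sum_sub_distrib]
  have h4 : ∑ i, a i * e i - a j ∈ I j := by
    rw [h3]
    exact (I j).sum_mem fun i _ => (I j).mul_mem_left _ (he i j)
  have h5 := (I j).sub_mem hj h4
  rwa [sub_sub_cancel] at h5

/-- S3a -/
theorem ker_not_le_sq {A T : Type u} [CommRing A] [CommRing T] [IsDedekindDomain T]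
    (f : A →+* T) (hf : Function.Surjective f) (P : Ideal A) [P.IsMaximal] (hP : RingHom.ker f ≤ P)
    [IsRegularLocalRing (Localization.AtPrime P)]
    (hd : 2 ≤ ringKrullDim (Localization.AtPrime P)) : ¬ RingHom.ker f ≤ P ^ 2 := by
  intro hle
  have hcm : (P.map f).comap f = P := by
    rw [Ideal.comap_map_of_surjective f hf, ← RingHom.ker_eq_comap_bot, sup_eq_left]
    exact hP
  have hmax : (P.map f).IsMaximal := by
    refine (Ideal.map_eq_top_or_isMaximal_of_surjective f hf ‹P.IsMaximal›).resolve_left fun h => ?_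
    have h2 := hcm
    rw [h, Ideal.comap_top] at h2
    exact (‹P.IsMaximal›.ne_top) h2.symm
  have hmap2 : (P.map f) ^ 2 = (P ^ 2).map f := (Ideal.map_pow f P 2).symm
  have key : ∃ b ∈ P.map f, ∀ c ∈ P.map f, ∃ d : T, ∃ e ∈ (P.map f) ^ 2, b * d + e = c := by
    by_cases h0 : P.map f = ⊥
    · refine ⟨0, Ideal.zero_mem _, fun c hc => ⟨0, 0, Ideal.zero_mem _, ?_⟩⟩
      rw [h0, Ideal.mem_bot] at hc
      rw [hc]
      simp
    · obtain ⟨b, hb, hb'⟩ := Ideal.exists_mem_pow_notMem_pow_succ _ h0 hmax.ne_top 1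
      refine ⟨b, by simpa using hb, fun c hc => ?_⟩
      exact Ideal.exists_mul_add_mem_pow_succ h0 b c hb hb' (by simpa using hc)
  obtain ⟨b, hb, hb'⟩ := key
  obtain ⟨a, rfl⟩ := hf b
  have haP : a ∈ P := by
    rw [← hcm]
    exact hb
  have hsup : P ≤ Ideal.span {a} ⊔ P ^ 2 := by
    intro p hp
    obtain ⟨d, e, he, hde⟩ := hb' (f p) (Ideal.mem_map_of_mem f hp)
    obtain ⟨d', rfl⟩ := hf d
    rw [hmap2] at he
    obtain ⟨e', he', rfl⟩ := (Ideal.mem_map_iff_of_surjective f hf).1 he
    have h2 : p - (a * d' + e') ∈ P ^ 2 := by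
      apply hle
      rw [RingHom.mem_ker, map_sub, map_add, map_mul, hde, sub_self]
    have h3 : p = a * d' + (e' + (p - (a * d' + e'))) := by ring
    rw [h3]
    exact Submodule.add_mem_sup (Ideal.mul_mem_right _ _ (Ideal.mem_span_singleton_self a))
      (Ideal.add_mem _ he' h2)
  have hm : maximalIdeal (Localization.AtPrime P) ≤
      Ideal.span {algebraMap A (Localization.AtPrime P) a} ⊔
        maximalIdeal (Localization.AtPrime P) • maximalIdeal (Localization.AtPrime P) := by
    have h2 : P.map (algebraMap A (Localization.AtPrime P)) =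
        maximalIdeal (Localization.AtPrime P) := Localization.AtPrime.map_eq_maximalIdeal
    have h3 := Ideal.map_mono (f := algebraMap A (Localization.AtPrime P)) hsup
    rw [Ideal.map_sup, Ideal.map_pow, Ideal.map_span, Set.image_singleton, h2, pow_two] at h3
    exact h3
  have hle' : maximalIdeal (Localization.AtPrime P) ≤
      Ideal.span {algebraMap A (Localization.AtPrime P) a} :=
    Submodule.le_of_le_smul_of_le_jacobson_bot (IsNoetherian.noetherian _)
      (maximalIdeal_le_jacobson _) hm
  have heq : maximalIdeal (Localization.AtPrime P) =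
      Ideal.span {algebraMap A (Localization.AtPrime P) a} := by
    refine le_antisymm hle' ?_
    rw [Ideal.span_singleton_le_iff_mem, ← Localization.AtPrime.map_eq_maximalIdeal]
    exact Ideal.mem_map_of_mem _ haP
  have h1 : ringKrullDim (Localization.AtPrime P) ≤ 1 := by
    refine (ringKrullDim_le_spanFinrank_maximalIdeal _).trans ?_
    rw [heq]
    have h4 := Submodule.spanFinrank_span_le_ncard_of_finite (R := Localization.AtPrime P)
      (Set.finite_singleton (algebraMap A (Localization.AtPrime P) a))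
    rw [Set.ncard_singleton] at h4
    exact_mod_cast h4
  have h2 := hd.trans h1
  exact absurd h2 (by norm_num)

end Pool.Agent.SLone
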