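import Pool.Agent.PurNrd.Reg

/-! `cut_regular` (S3b) of `SurfA.lean`. -/

namespace Pool.Agent.SLone

open IsLocalRing

universe u

private theorem notMem_sq {A : Type u} [CommRing A] (P : Ideal A) [P.IsMaximal] (g : A)
    (hg : g ∉ P ^ 2) : algebraMap A (Localization.AtPrime P) g ∉
      maximalIdeal (Localization.AtPrime P) ^ 2 := by
  intro h
  apply hg
  rw [← Localization.AtPrime.map_eq_maximalIdeal, ← Ideal.map_pow,
    IsLocalization.mem_map_algebraMap_iff P.primeCompl] at h
  obtain ⟨⟨⟨y, hy⟩, ⟨s, hs⟩⟩, h⟩ := h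
  simp only at h
  rw [← map_mul, IsLocalization.eq_iff_exists P.primeCompl] at h
  obtain ⟨⟨c, hc⟩, h⟩ := h
  simp only at h
  have hcs : c * s ∉ P := fun h2 => by
    rcases (Ideal.IsMaximal.isPrime ‹P.IsMaximal›).mem_or_mem h2 with h3 | h3
    · exact hc h3
    · exact hs h3
  have hcop : IsCoprime (Ideal.span {c * s}) (P ^ 2) := by
    apply IsCoprime.pow_right
    rw [Ideal.isCoprime_iff_sup_eq, sup_comm]
    exact (Ideal.IsMaximal.out (I := P)).2 _ (by
      rw [left_lt_sup, Ideal.span_singleton_le_iff_mem]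
      exact hcs)
  rw [Ideal.isCoprime_iff_exists] at hcop
  obtain ⟨i, hi, j, hj, hij⟩ := hcop
  obtain ⟨a, rfl⟩ := Ideal.mem_span_singleton'.1 hi
  have h2 : g = a * (c * y) + j * g := by
    rw [← h]
    calc g = (a * (c * s) + j) * g := by rw [hij, one_mul]
      _ = _ := by ring
  rw [h2]
  exact Ideal.add_mem _ (Ideal.mul_mem_left _ _ (Ideal.mul_mem_left _ _ hy))
    (Ideal.mul_mem_right _ _ hj)

private theorem cut_aux {A : Type u} [CommRing A] (g : A)
    (Q : Ideal (A ⧸ Ideal.span {g})) [Q.IsMaximal] (P : Ideal A) [P.IsMaximal]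
    (hP : P = Q.comap (Ideal.Quotient.mk (Ideal.span {g})))
    [IsRegularLocalRing (Localization.AtPrime P)] (hg : g ∉ P ^ 2) (d : ℕ)
    (hd : ringKrullDim (Localization.AtPrime P) = (d + 1 : ℕ)) :
    IsRegularLocalRing (Localization.AtPrime Q) ∧ ringKrullDim (Localization.AtPrime Q) = d := by
  let AP := Localization.AtPrime P
  let x : AP := algebraMap A AP g
  have hgP : g ∈ P := by
    rw [hP, Ideal.mem_comap, Ideal.Quotient.eq_zero_iff_mem.2 (Ideal.mem_span_singleton_self g)]
    exact Q.zero_mem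
  have hx : x ∈ maximalIdeal AP := by
    rw [← Localization.AtPrime.map_eq_maximalIdeal]
    exact Ideal.mem_map_of_mem _ hgP
  have hx2 : x ∉ maximalIdeal AP ^ 2 := notMem_sq P g hg
  have hsp : (maximalIdeal AP).spanFinrank = d + 1 := by
    have h1 := IsRegularLocalRing.spanFinrank_maximalIdeal (R := AP)
    rw [hd] at h1
    exact_mod_cast h1
  obtain ⟨hreg, hrank⟩ := PurNrd.regular_quot hx hx2 d hsp
  have hle : Ideal.span {g} ≤ (Ideal.span {x}).comap (algebraMap A AP) := by
    rw [Ideal.span_singleton_le_iff_mem, Ideal.mem_comap]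
    exact Ideal.mem_span_singleton_self x
  letI : Algebra (A ⧸ Ideal.span {g}) (AP ⧸ Ideal.span {x}) :=
    (Ideal.quotientMap (Ideal.span {x}) (algebraMap A AP) hle).toAlgebra
  have hloc : IsLocalization (P.primeCompl.map (Ideal.Quotient.mk (Ideal.span {g})))
      (AP ⧸ Ideal.span {x}) := by
    refine IsLocalization.of_surjective P.primeCompl AP (Ideal.Quotient.mk (Ideal.span {g}))
      Ideal.Quotient.mk_surjective (Ideal.Quotient.mk (Ideal.span {x}))
      Ideal.Quotient.mk_surjective ?_ ?_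
    · ext a
      rfl
    · rw [Ideal.mk_ker, Ideal.mk_ker, Ideal.map_span, Set.image_singleton]
  have hcompl : P.primeCompl.map (Ideal.Quotient.mk (Ideal.span {g})) = Q.primeCompl := by
    ext y
    constructor
    · rintro ⟨a, ha, rfl⟩
      change a ∉ P at ha
      rw [hP] at ha
      exact ha
    · intro hy
      obtain ⟨a, rfl⟩ := Ideal.Quotient.mk_surjective y
      refine ⟨a, ?_, rfl⟩
      change a ∉ P
      rw [hP]
      exact hy
  rw [hcompl] at hloc
  let e : (AP ⧸ Ideal.span {x}) ≃+* Localization.AtPrime Q :=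
    (IsLocalization.algEquiv Q.primeCompl (AP ⧸ Ideal.span {x})
      (Localization.AtPrime Q)).toRingEquiv
  refine ⟨IsRegularLocalRing.of_ringEquiv e, ?_⟩
  rw [← ringKrullDim_eq_of_ringEquiv e, ← IsRegularLocalRing.spanFinrank_maximalIdeal, hrank]

/-- S3b -/
theorem cut_regular {A : Type u} [CommRing A] (g : A)
    (Q : Ideal (A ⧸ Ideal.span {g})) [Q.IsMaximal]
    [IsRegularLocalRing (Localization.AtPrime (Q.comap (Ideal.Quotient.mk (Ideal.span {g}))))]
    (hg : g ∉ Q.comap (Ideal.Quotient.mk (Ideal.span {g})) ^ 2) (d : ℕ)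
    (hd : ringKrullDim (Localization.AtPrime (Q.comap (Ideal.Quotient.mk (Ideal.span {g})))) =
      (d + 1 : ℕ)) :
    IsRegularLocalRing (Localization.AtPrime Q) ∧ ringKrullDim (Localization.AtPrime Q) = d := by
  have hPmax : (Q.comap (Ideal.Quotient.mk (Ideal.span {g}))).IsMaximal :=
    Ideal.comap_isMaximal_of_surjective _ Ideal.Quotient.mk_surjective
  exact cut_aux g Q _ rfl hg d hd

end Pool.Agent.SLone
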