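import Mathlib

/-! Piece S4 of `SurfA.lean` -/

namespace Pool.Agent.SLone

open IsLocalRing

universe u

/-- S4 -/
theorem finite_of_monic {R : Type u} [CommRing R] (s : ℕ) (g : Fin s → MvPolynomial (Fin s) R)
    (N : Fin s → ℕ) (hg : ∀ i, (g i - MvPolynomial.X i ^ N i).totalDegree < N i) :
    Module.Finite R (MvPolynomial (Fin s) R ⧸ Ideal.span (Set.range g)) := by
  classical
  set I : Ideal (MvPolynomial (Fin s) R) := Ideal.span (Set.range g) with hI
  set π : MvPolynomial (Fin s) R →ₐ[R] (MvPolynomial (Fin s) R ⧸ I) := Ideal.Quotient.mkₐ R I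
    with hπ
  let b : (∀ i, Fin (N i)) → MvPolynomial (Fin s) R ⧸ I :=
    fun φ => π (∏ i, MvPolynomial.X i ^ (φ i : ℕ))
  set M : Submodule R (MvPolynomial (Fin s) R ⧸ I) := Submodule.span R (Set.range b) with hM
  have hgi : ∀ i, π (g i) = 0 := by
    intro i
    exact Ideal.Quotient.eq_zero_iff_mem.2 (Ideal.subset_span ⟨i, rfl⟩)
  have key : ∀ d : ℕ, ∀ p : MvPolynomial (Fin s) R, p.totalDegree < d → π p ∈ M := by
    intro d
    induction d with
    | zero => intro p hp; exact absurd hp (Nat.not_lt_zero _)
    | succ d ih =>
      intro p hp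
      rw [p.as_sum, map_sum]
      refine Submodule.sum_mem _ fun α hα => ?_
      have hdeg : (α.sum fun _ e => e) ≤ d :=
        (MvPolynomial.le_totalDegree hα).trans (Nat.lt_succ_iff.1 hp)
      by_cases hbox : ∀ i, α i < N i
      · have h1 : MvPolynomial.monomial α (MvPolynomial.coeff α p) =
            (MvPolynomial.coeff α p) • ∏ i, (MvPolynomial.X i ^ α i : MvPolynomial (Fin s) R) := by
          rw [MvPolynomial.monomial_eq, Finsupp.prod_fintype _ _ (by simp), MvPolynomial.smul_eq_C_mul]
        rw [h1, map_smul]
        exact M.smul_mem _ (Submodule.subset_span ⟨fun i => ⟨α i, hbox i⟩, rfl⟩)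
      · push Not at hbox
        obtain ⟨i, hi⟩ := hbox
        set β : Fin s →₀ ℕ := α - Finsupp.single i (N i) with hβ
        have hαβ : α = β + Finsupp.single i (N i) := by
          rw [hβ, tsub_add_cancel_of_le]
          rw [Finsupp.single_le_iff]
          exact hi
        set c := MvPolynomial.coeff α p with hc
        have h1 : MvPolynomial.monomial α c =
            MvPolynomial.monomial β c * MvPolynomial.X i ^ N i := by
          rw [MvPolynomial.X_pow_eq_monomial, MvPolynomial.monomial_mul, mul_one, ← hαβ]
        have h2 : π (MvPolynomial.monomial α c) =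
            - π (MvPolynomial.monomial β c * (g i - MvPolynomial.X i ^ N i)) := by
          rw [h1, mul_sub, map_sub, map_mul _ _ (g i), hgi, mul_zero, zero_sub, neg_neg]
        rw [h2]
        refine M.neg_mem (ih _ ?_)
        have h3 : (α.sum fun _ e => e) = (β.sum fun _ e => e) + N i := by
          conv_lhs => rw [hαβ]
          rw [Finsupp.sum_add_index' (by simp) (by simp), Finsupp.sum_single_index rfl]
        have h4 : (MvPolynomial.monomial β c).totalDegree ≤ β.sum fun _ e => e := by
          by_cases hc0 : c = 0
          · rw [hc0]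
            simp
          · rw [MvPolynomial.totalDegree_monomial _ hc0]
        have h5 := MvPolynomial.totalDegree_mul (MvPolynomial.monomial β c)
          (g i - MvPolynomial.X i ^ N i)
        have h6 := hg i
        omega
  have htop : M = ⊤ := by
    rw [eq_top_iff]
    rintro x -
    obtain ⟨p, rfl⟩ := Ideal.Quotient.mkₐ_surjective R I x
    exact key _ p (Nat.lt_succ_self _)
  refine ⟨?_⟩
  rw [← htop, hM]
  exact Submodule.fg_span (Set.finite_range b)

end Pool.Agent.SLone
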