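import Mathlib

/-! Sub-lemmas for `Surface.lean`: S5. -/

namespace Pool.Agent.SLone

open IsLocalRing

universe u

/-- S5a -/
theorem isDomain_of_points {C T : Type u} [CommRing C] [CommRing T] [IsDomain T]
    (f : C →+* T) (hmax : ∀ P : Ideal C, P.IsMaximal → RingHom.ker f ≤ P)
    (hdom : ∀ (P : Ideal C) [P.IsMaximal], IsDomain (Localization.AtPrime P)) : IsDomain C := by
  have hJ : (RingHom.ker f).IsPrime := RingHom.ker_isPrime f
  have hnt : Nontrivial C := by
    by_contra h
    rw [not_nontrivial_iff_subsingleton] at h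
    exact hJ.ne_top (Subsingleton.elim _ _)
  -- a maximal ideal at which a nonzero element does not vanish
  have key : ∀ a : C, a ≠ 0 → ∃ P : Ideal C, ∃ _ : P.IsMaximal,
      algebraMap C (Localization.AtPrime P) a ≠ 0 := by
    intro a ha
    obtain ⟨P, hP, hle⟩ := Ideal.exists_le_maximal (Ideal.span {a}).annihilator (by
      intro h
      have h1 : (1 : C) ∈ (Ideal.span {a}).annihilator := h ▸ Submodule.mem_top
      have h2 := Submodule.mem_annihilator.1 h1 a (Ideal.mem_span_singleton_self a)
      rw [smul_eq_mul, one_mul] at h2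
      exact ha h2)
    refine ⟨P, hP, fun h => ?_⟩
    obtain ⟨s, hs⟩ := (IsLocalization.map_eq_zero_iff P.primeCompl
      (Localization.AtPrime P) a).1 h
    refine s.2 (hle (Submodule.mem_annihilator.2 fun x hx => ?_))
    obtain ⟨y, rfl⟩ := Ideal.mem_span_singleton.1 hx
    rw [smul_eq_mul, ← mul_assoc, hs, zero_mul]
  -- the elements off the kernel are not zero divisors
  have key2 : ∀ a : C, a ≠ 0 → ∀ s : C, s ∉ RingHom.ker f → s * a ≠ 0 := by
    intro a ha s hs h0
    obtain ⟨P, hP, hPa⟩ := key a ha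
    have := hdom P
    have h1 := congrArg (algebraMap C (Localization.AtPrime P)) h0
    rw [map_mul, map_zero] at h1
    obtain ⟨u, hu⟩ := (IsLocalization.map_eq_zero_iff P.primeCompl
      (Localization.AtPrime P) s).1 ((mul_eq_zero.1 h1).resolve_right hPa)
    have h2 : (u : C) * s ∈ RingHom.ker f := by
      rw [hu]
      exact zero_mem _
    rcases hJ.mem_or_mem h2 with h3 | h3
    · exact u.2 (hmax P hP h3)
    · exact hs h3
  have : NoZeroDivisors C := by
    refine ⟨fun {a b} hab => ?_⟩
    by_contra hcon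
    push Not at hcon
    obtain ⟨P, hP, hPa⟩ := key a hcon.1
    have := hdom P
    have h1 := congrArg (algebraMap C (Localization.AtPrime P)) hab
    rw [map_mul, map_zero] at h1
    obtain ⟨u, hu⟩ := (IsLocalization.map_eq_zero_iff P.primeCompl
      (Localization.AtPrime P) b).1 ((mul_eq_zero.1 h1).resolve_left hPa)
    exact key2 b hcon.2 u (fun h => u.2 (hmax P hP h)) hu
  exact NoZeroDivisors.to_isDomain C

/-- S5b -/
theorem finite_max {R C : Type u} [CommRing R] [IsLocalRing R] [IsNoetherianRing R] [CommRing C]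
    [Algebra R C] [Module.Finite R C] : Finite (MaximalSpectrum C) := by
  have h1 : Finite ((maximalIdeal R).primesOver C) :=
    Algebra.QuasiFinite.finite_primesOver (maximalIdeal R)
  have h2 : ∀ P : MaximalSpectrum C, P.asIdeal ∈ (maximalIdeal R).primesOver C := by
    intro P
    have := P.isMaximal
    have h3 := Ideal.isMaximal_comap_of_isIntegral_of_isMaximal (R := R) P.asIdeal
    exact ⟨P.isMaximal.isPrime, ⟨(IsLocalRing.eq_maximalIdeal h3).symm⟩⟩
  exact Finite.of_injective (fun P : MaximalSpectrum C =>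
    (⟨P.asIdeal, h2 P⟩ : (maximalIdeal R).primesOver C)) fun P Q h =>
      MaximalSpectrum.ext (congrArg Subtype.val h)

/-- S5c -/
theorem exists_killed {R C : Type u} [CommRing R] [IsDomain R] [IsLocalRing R]
    [IsNoetherianRing R] [CommRing C] [Algebra R C]
    [Module.Finite R C] (hR : ringKrullDim R = 3)
    (hC : ∀ (P : Ideal C) [P.IsMaximal], ringKrullDim (Localization.AtPrime P) = 2) :
    ∃ r : R, r ≠ 0 ∧ algebraMap R C r = 0 := by
  by_contra hcon
  push Not at hcon
  have hinj : RingHom.ker (algebraMap R C) = ⊥ := by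
    refine (RingHom.injective_iff_ker_eq_bot _).1 ((injective_iff_map_eq_zero _).2 fun r h => ?_)
    by_contra h0
    exact hcon r h0 h
  obtain ⟨l, hl⟩ := Order.le_krullDim_iff.1 (show ((3 : ℕ) : WithBot ℕ∞) ≤
    Order.krullDim (PrimeSpectrum R) from le_of_eq hR.symm)
  obtain ⟨Q, -, hQ, hQl⟩ := Ideal.exists_ideal_over_prime_of_isIntegral
    (RelSeries.head l).asIdeal (⊥ : Ideal C) (by
      rw [← RingHom.ker_eq_comap_bot, hinj]
      exact bot_le)
  have hlo : Q.LiesOver (RelSeries.head l).asIdeal := ⟨hQl.symm⟩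
  obtain ⟨L, hL, -, -⟩ := Ideal.exists_ltSeries_of_hasGoingUp (R := R) (S := C) l Q
  have h3 : ((3 : ℕ) : WithBot ℕ∞) ≤ ringKrullDim C := Order.le_krullDim_iff.2 ⟨L, hL.trans hl⟩
  have h2 : ringKrullDim C ≤ 2 := by
    rw [ringKrullDim_le_iff_isMaximal_height_le]
    intro P hP
    rw [← IsLocalization.AtPrime.ringKrullDim_eq_height P (Localization.AtPrime P), hC P]
  have h4 := h3.trans h2
  exact absurd h4 (by decide)

end Pool.Agent.SLone
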