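import Pool.Agent.SLone.SurfA1
import Pool.Agent.SLone.SurfA2
import Pool.Agent.SLone.SurfA3
import Pool.Agent.SLone.SurfA4
import Pool.Agent.SLone.SurfA5
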