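import Mathlib

/-! Regularity of polynomial rings at primes over regular points. -/

namespace Pool.Agent.SLone

open IsLocalRing

universe u

/-- S1a (the proof of Mathlib's `Polynomial.isRegularRing_of_isRegularRing` gives this) -/
theorem poly_regular {A : Type u} [CommRing A] (p : Ideal (Polynomial A)) [p.IsPrime]
    [IsRegularLocalRing (Localization.AtPrime (p.comap (Polynomial.C : A →+* Polynomial A)))] :
    IsRegularLocalRing (Localization.AtPrime p) := by
  let q := p.comap (Polynomial.C : A →+* Polynomial A)
  let S := Polynomial (Localization.AtPrime q)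
  let pc := Submonoid.map Polynomial.C.toMonoidHom q.primeCompl
  let : Algebra (Polynomial A) S := Polynomial.algebra A (Localization.AtPrime q)
  have : IsLocalization pc S := Polynomial.isLocalization _ _
  let pS := p.map (algebraMap (Polynomial A) S)
  have disj : Disjoint (pc : Set (Polynomial A)) (p : Set (Polynomial A)) := by
    simpa [pc, q] using! Set.disjoint_image_left.mpr
      (Set.disjoint_compl_left_iff_subset.mpr (fun _ a ↦ a))
  have : pS.IsPrime := IsLocalization.isPrime_of_isPrime_disjoint pc _ _ ‹_› disj
  have : IsLocalization.AtPrime (Localization.AtPrime pS) p := by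
    convert IsLocalization.isLocalization_isLocalization_atPrime_isLocalization pc
      (Localization.AtPrime pS) pS
    exact (IsLocalization.under_map_of_isPrime_disjoint pc _ ‹_› disj).symm
  have eq : pS.comap Polynomial.C = maximalIdeal (Localization.AtPrime q) := by
    rw [← IsLocalization.map_under q.primeCompl _ (pS.comap Polynomial.C),
      ← IsLocalization.map_under q.primeCompl _ (maximalIdeal (Localization.AtPrime q))]
    simp only [Ideal.comap_comap, S, pS]
    rw [← Polynomial.algebraMap_eq (R := Localization.AtPrime q),
      ← IsScalarTower.algebraMap_eq A (Localization.AtPrime q)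
        (Polynomial (Localization.AtPrime q)),
      IsScalarTower.algebraMap_eq A (Polynomial A) (Polynomial (Localization.AtPrime q)),
      ← Ideal.comap_comap,
      ← Ideal.under_def (Polynomial A), IsLocalization.under_map_of_isPrime_disjoint pc _ ‹_› disj]
    simp [q, IsLocalization.AtPrime.under_maximalIdeal (Localization.AtPrime q) q]
  have := Polynomial.isRegularLocalRing_localization_atPrime_of_comap_eq_maximalIdeal _ pS eq
  let e := (IsLocalization.algEquiv p.primeCompl
    (Localization.AtPrime pS) (Localization.AtPrime p)).toRingEquiv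
  exact IsRegularLocalRing.of_ringEquiv (R := Localization.AtPrime pS)
    (R' := Localization.AtPrime p) e

/-- a maximal ideal of `B[X]` containing `ker φ`, `φ : B → B'` surjective onto a Jacobson ring,
meets `B` in a maximal ideal -/
theorem isMaximal_comap_of_jacobson {B B' : Type u} [CommRing B] [CommRing B'] [IsJacobsonRing B']
    (φ : B →+* B') (hφ : Function.Surjective φ) (P : Ideal (Polynomial B)) [P.IsMaximal]
    (hker : (RingHom.ker φ).map Polynomial.C ≤ P) : (P.comap Polynomial.C).IsMaximal := by
  have hs : Function.Surjective (Polynomial.mapRingHom φ) := Polynomial.map_surjective φ hφ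
  have hk : RingHom.ker (Polynomial.mapRingHom φ) ≤ P := by
    rw [Polynomial.ker_mapRingHom]
    exact hker
  have h1 : (P.map (Polynomial.mapRingHom φ)).IsMaximal :=
    (Ideal.map_eq_top_or_isMaximal_of_surjective _ hs ‹_›).resolve_left (by
      intro htop
      have h2 := Ideal.comap_map_of_surjective' _ hs P
      rw [htop, Ideal.comap_top, sup_eq_left.2 hk] at h2
      exact (Ideal.IsMaximal.ne_top ‹_›) h2.symm)
  have h3 : (P.map (Polynomial.mapRingHom φ)).comap (Polynomial.mapRingHom φ) = P := by
    rw [Ideal.comap_map_of_surjective' _ hs P, sup_eq_left.2 hk]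
  have h4 : ((P.map (Polynomial.mapRingHom φ)).comap
      (Polynomial.C : B' →+* Polynomial B')).IsMaximal :=
    Polynomial.isMaximal_comap_C_of_isJacobsonRing _
  have h5 := Ideal.comap_isMaximal_of_surjective φ hφ (K := (P.map
    (Polynomial.mapRingHom φ)).comap (Polynomial.C : B' →+* Polynomial B'))
  have h6 : ((P.map (Polynomial.mapRingHom φ)).comap
      (Polynomial.C : B' →+* Polynomial B')).comap φ = P.comap Polynomial.C := by
    rw [Ideal.comap_comap]
    conv_rhs => rw [← h3]
    rw [Ideal.comap_comap]
    congr 1
    ext b
    simp
  rwa [h6] at h5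

/-- S1b -/
theorem mvpoly_regular {R : Type u} [CommRing R] [IsRegularLocalRing R] (s : ℕ)
    (P : Ideal (MvPolynomial (Fin s) R)) [P.IsMaximal]
    (hP : P.comap (MvPolynomial.C : R →+* MvPolynomial (Fin s) R) = maximalIdeal R) :
    IsRegularLocalRing (Localization.AtPrime P) ∧
      ringKrullDim (Localization.AtPrime P) = ringKrullDim R + (s : WithBot ℕ∞) := by
  induction s with
  | zero =>
    let e : R ≃+* MvPolynomial (Fin 0) R := (MvPolynomial.isEmptyRingEquiv R (Fin 0)).symm
    have hPe : P.comap e = maximalIdeal R := by
      rw [← hP]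
      rfl
    have hprime : (P.comap e).IsPrime := Ideal.comap_isPrime _ _
    let E1 : Localization.AtPrime (P.comap e) ≃+* Localization.AtPrime P :=
      IsLocalization.ringEquivOfRingEquiv (Localization.AtPrime (P.comap e))
        (Localization.AtPrime P) e (e.map_primeCompl_comap_eq P)
    let E2 : R ≃ₐ[R] Localization.AtPrime (P.comap e) :=
      IsLocalization.atUnits R (P.comap e).primeCompl (fun x hx => by
        by_contra hcon
        apply hx
        rw [hPe]
        exact hcon)
    let E : R ≃+* Localization.AtPrime P := E2.toRingEquiv.trans E1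
    refine ⟨IsRegularLocalRing.of_ringEquiv (R := R) (R' := Localization.AtPrime P) E, ?_⟩
    rw [← ringKrullDim_eq_of_ringEquiv E]
    simp
  | succ n ih =>
    let e : Polynomial (MvPolynomial (Fin n) R) ≃+* MvPolynomial (Fin (n + 1)) R :=
      (MvPolynomial.finSuccEquiv R n).symm.toRingEquiv
    have he : ∀ r : R, e (Polynomial.C (MvPolynomial.C r)) = MvPolynomial.C r := by
      intro r
      have h1 : MvPolynomial.finSuccEquiv R n (MvPolynomial.C r) =
          Polynomial.C (MvPolynomial.C r) := by
        simp [MvPolynomial.finSuccEquiv_apply]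
      change (MvPolynomial.finSuccEquiv R n).symm (Polynomial.C (MvPolynomial.C r)) = _
      rw [← h1, AlgEquiv.symm_apply_apply]
    let P' : Ideal (Polynomial (MvPolynomial (Fin n) R)) := P.comap e
    have hmax : P'.IsMaximal := Ideal.comap_isMaximal_of_equiv e
    have hcomap : (P'.comap (Polynomial.C : MvPolynomial (Fin n) R →+* _)).comap
        (MvPolynomial.C : R →+* MvPolynomial (Fin n) R) = maximalIdeal R := by
      rw [← hP]
      ext r
      change e (Polynomial.C (MvPolynomial.C r)) ∈ P ↔ MvPolynomial.C r ∈ P
      rw [he]
    let E1 : Localization.AtPrime P' ≃+* Localization.AtPrime P :=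
      IsLocalization.ringEquivOfRingEquiv (Localization.AtPrime (P.comap e))
        (Localization.AtPrime P) e (e.map_primeCompl_comap_eq P)
    let Q : Ideal (MvPolynomial (Fin n) R) := P'.comap Polynomial.C
    have hQ : Q.IsMaximal := by
      refine isMaximal_comap_of_jacobson (MvPolynomial.map (residue R) :
        MvPolynomial (Fin n) R →+* MvPolynomial (Fin n) (ResidueField R))
        (MvPolynomial.map_surjective _ residue_surjective) P' ?_
      rw [MvPolynomial.ker_map, ker_residue, Ideal.map_le_iff_le_comap,
        Ideal.map_le_iff_le_comap]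
      exact hcomap.ge
    obtain ⟨h1, h2⟩ := ih Q hcomap
    have h3 : IsRegularLocalRing (Localization.AtPrime P') := poly_regular P'
    refine ⟨IsRegularLocalRing.of_ringEquiv (R := Localization.AtPrime P')
      (R' := Localization.AtPrime P) E1, ?_⟩
    rw [← ringKrullDim_eq_of_ringEquiv E1,
      IsLocalization.AtPrime.ringKrullDim_eq_height P' (Localization.AtPrime P')]
    rw [IsLocalization.AtPrime.ringKrullDim_eq_height Q (Localization.AtPrime Q)] at h2
    have hover : P'.LiesOver Q := ⟨rfl⟩
    rw [Polynomial.height_eq_height_add_one Q P', WithBot.coe_add, h2, WithBot.coe_one,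
      Nat.cast_succ, add_assoc]

end Pool.Agent.SLone
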