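import Pool.Agent.PurNrd.Reg
import Pool.Agent.SLone.SurfA

/-! Every finite algebra over a regular local ring of dimension three which is a Dedekind domain
is a quotient of a finite algebra which is a semilocal regular domain of dimension two. -/

namespace Pool.Agent.SLone

open IsLocalRing

universe u

/-- An element of the kernel outside the squares of the maximal ideals. -/
theorem surf_choose {A T : Type u} [CommRing A] [CommRing T] [IsDedekindDomain T]
    [Finite (MaximalSpectrum T)] (f : A →+* T) (hf : Function.Surjective f)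
    (hreg : ∀ (Q : Ideal A) [Q.IsMaximal], RingHom.ker f ≤ Q →
      IsRegularLocalRing (Localization.AtPrime Q) ∧ 2 ≤ ringKrullDim (Localization.AtPrime Q)) :
    ∃ h ∈ RingHom.ker f, ∀ (Q : Ideal A) [Q.IsMaximal], RingHom.ker f ≤ Q → h ∉ Q ^ 2 := by
  have hmax : ∀ i : MaximalSpectrum T, (i.asIdeal.comap f).IsMaximal := fun i =>
    have := i.isMaximal
    Ideal.comap_isMaximal_of_surjective f hf
  obtain ⟨h, hh, hI⟩ := avoid (fun i : MaximalSpectrum T => (i.asIdeal.comap f) ^ 2) (by
    intro i j hij
    have h1 : i.asIdeal.comap f ≠ j.asIdeal.comap f := by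
      intro h
      apply hij
      have h2 := Ideal.comap_injective_of_surjective f hf h
      exact MaximalSpectrum.ext h2
    have h2 : IsCoprime (i.asIdeal.comap f) (j.asIdeal.comap f) := by
      rw [Ideal.isCoprime_iff_sup_eq]
      exact (hmax i).coprime_of_ne (hmax j) h1
    exact h2.pow) (RingHom.ker f) (by
    intro i
    have := hmax i
    have hle : RingHom.ker f ≤ i.asIdeal.comap f := by
      intro x hx
      rw [RingHom.mem_ker] at hx
      rw [Ideal.mem_comap, hx]
      exact zero_mem _
    obtain ⟨h1, h2⟩ := hreg _ hle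
    exact ker_not_le_sq f hf _ hle h2)
  refine ⟨h, hh, fun Q _ hQ => ?_⟩
  have h1 : (Q.map f).comap f = Q := by
    rw [Ideal.comap_map_of_surjective f hf]
    exact sup_eq_left.2 hQ
  have h2 : (Q.map f).IsMaximal := by
    rcases Ideal.map_eq_top_or_isMaximal_of_surjective f hf (I := Q) inferInstance with h | h
    · rw [h, Ideal.comap_top] at h1
      exact absurd h1.symm (Ideal.IsMaximal.ne_top inferInstance)
    · exact h
  have h3 := hI ⟨Q.map f, h2⟩
  simp only [h1] at h3
  exact h3

/-- The regularity of the quotient. -/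
theorem surf_cut {A T : Type u} [CommRing A] [CommRing T] (f : A →+* T) (h : A)
    (d : ℕ)
    (hreg : ∀ (Q : Ideal A) [Q.IsMaximal], RingHom.ker f ≤ Q → h ∉ Q ^ 2 ∧
      IsRegularLocalRing (Localization.AtPrime Q) ∧
      ringKrullDim (Localization.AtPrime Q) = (d + 1 : ℕ))
    (f' : (A ⧸ Ideal.span {h}) →+* T) (hf' : f'.comp (Ideal.Quotient.mk _) = f)
    (Q : Ideal (A ⧸ Ideal.span {h})) [Q.IsMaximal] (hQ : RingHom.ker f' ≤ Q) :
    IsRegularLocalRing (Localization.AtPrime Q) ∧
      ringKrullDim (Localization.AtPrime Q) = d := by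
  have : (Q.comap (Ideal.Quotient.mk (Ideal.span {h}))).IsMaximal :=
    Ideal.comap_isMaximal_of_surjective _ Ideal.Quotient.mk_surjective
  have hle : RingHom.ker f ≤ Q.comap (Ideal.Quotient.mk (Ideal.span {h})) := by
    intro x hx
    rw [Ideal.mem_comap]
    apply hQ
    rw [RingHom.mem_ker] at hx ⊢
    rw [← hx, ← hf']
    rfl
  obtain ⟨h1, h2, h3⟩ := hreg _ hle
  exact cut_regular h Q h1 d h3

/-- The total degree of a polynomial in one of the variables. -/
theorem totalDegree_aeval_X {R : Type u} [CommRing R] [Nontrivial R] (s : ℕ) (i : Fin s)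
    (q : Polynomial R) :
    (Polynomial.aeval (MvPolynomial.X i : MvPolynomial (Fin s) R) q).totalDegree ≤
      q.natDegree := by
  rw [Polynomial.aeval_eq_sum_range]
  refine MvPolynomial.totalDegree_finsetSum_le fun k hk => ?_
  rw [Finset.mem_range] at hk
  refine (MvPolynomial.totalDegree_smul_le _ _).trans ?_
  refine (MvPolynomial.totalDegree_pow _ _).trans ?_
  rw [MvPolynomial.totalDegree_X, mul_one]
  omega

/-- The tower of quotients. -/
theorem surf_tower {R : Type u} [CommRing R] {T : Type u} [CommRing T] [IsDedekindDomain T]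
    [Finite (MaximalSpectrum T)] (s : ℕ) (φ : MvPolynomial (Fin s) R →+* T)
    (hφ : Function.Surjective φ) (G : Fin s → MvPolynomial (Fin s) R) (hG : ∀ i, φ (G i) = 0)
    (D : Fin s → ℕ) (hD : ∀ i N, 2 * D i < N →
      (MvPolynomial.X i ^ (N - 2 * D i) * G i ^ 2 - MvPolynomial.X i ^ N).totalDegree < N)
    (hreg : ∀ (Q : Ideal (MvPolynomial (Fin s) R)) [Q.IsMaximal], RingHom.ker φ ≤ Q →
      IsRegularLocalRing (Localization.AtPrime Q) ∧
      ringKrullDim (Localization.AtPrime Q) = (3 + s : ℕ)) (k : ℕ) (hk : k ≤ s) :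
    ∃ (g : Fin s → MvPolynomial (Fin s) R) (N : Fin s → ℕ) (A : Type u) (_ : CommRing A)
      (π : MvPolynomial (Fin s) R →+* A) (f : A →+* T), Function.Surjective π ∧
      f.comp π = φ ∧ RingHom.ker π = Ideal.span (g '' {j | j.val < k}) ∧
      (∀ j, j.val < k → (g j - MvPolynomial.X j ^ N j).totalDegree < N j) ∧
      ∀ (Q : Ideal A) [Q.IsMaximal], RingHom.ker f ≤ Q →
        IsRegularLocalRing (Localization.AtPrime Q) ∧
        ringKrullDim (Localization.AtPrime Q) = (3 + s - k : ℕ) := by
  induction k with
  | zero =>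
    refine ⟨0, 0, _, inferInstance, RingHom.id _, φ, Function.surjective_id, RingHom.comp_id _,
      ?_, ?_, ?_⟩
    · have : {j : Fin s | j.val < 0} = ∅ := by ext j; simp
      rw [this, Set.image_empty, Ideal.span_empty]
      exact (RingHom.injective_iff_ker_eq_bot _).1 Function.injective_id
    · intro j hj
      omega
    · intro Q _ hQ
      exact hreg Q hQ
  | succ k ih =>
    obtain ⟨g, N, A, _, π, f, hπ, hfπ, hker, hdeg, hA⟩ := ih (by omega)
    have hf : Function.Surjective f := by
      intro t
      obtain ⟨x, hx⟩ := hφ t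
      exact ⟨π x, by rw [← hx, ← hfπ]; rfl⟩
    have hdim : 3 + s - k = (3 + s - (k + 1)) + 1 := by omega
    obtain ⟨h', hh', hsq⟩ := surf_choose f hf (by
      intro Q _ hQ
      obtain ⟨h1, h2⟩ := hA Q hQ
      refine ⟨h1, ?_⟩
      rw [h2]
      have : 2 ≤ 3 + s - k := by omega
      exact_mod_cast this)
    obtain ⟨h, rfl⟩ := hπ h'
    have hfx : ∀ x, f (π x) = φ x := fun x => by rw [← hfπ]; rfl
    set i : Fin s := ⟨k, by omega⟩ with hi
    set N' : ℕ := 2 * D i + h.totalDegree + 1 with hN'
    set g' : MvPolynomial (Fin s) R :=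
      MvPolynomial.X i ^ (N' - 2 * D i) * G i ^ 2 + h with hg'
    have hφg' : f (π g') = 0 := by
      rw [hfx, hg', map_add, map_mul, map_pow φ (G i), hG, zero_pow two_ne_zero, mul_zero,
        zero_add, ← hfx]
      exact hh'
    let f' : (A ⧸ Ideal.span {π g'}) →+* T := Ideal.Quotient.lift _ f (by
      intro a ha
      rw [Ideal.mem_span_singleton] at ha
      obtain ⟨c, rfl⟩ := ha
      rw [map_mul, hφg', zero_mul])
    have hf' : f'.comp (Ideal.Quotient.mk _) = f := Ideal.Quotient.lift_comp_mk _ _ _
    refine ⟨Function.update g i g', Function.update N i N', A ⧸ Ideal.span {π g'},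
      inferInstance, (Ideal.Quotient.mk _).comp π, f', ?_, ?_, ?_, ?_, ?_⟩
    · exact Ideal.Quotient.mk_surjective.comp hπ
    · rw [← RingHom.comp_assoc, hf', hfπ]
    · have e1 : Function.update g i g' '' {j | j.val < k + 1} =
          insert g' (g '' {j | j.val < k}) := by
        ext x
        simp only [Set.mem_image, Set.mem_ofPred_eq, Set.mem_insert_iff]
        constructor
        · rintro ⟨j, hj, rfl⟩
          by_cases hji : j = i
          · subst hji
            left
            simp
          · right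
            refine ⟨j, ?_, by rw [Function.update_of_ne hji]⟩
            have : j.val ≠ k := fun hh => hji (Fin.ext hh)
            omega
        · rintro (rfl | ⟨j, hj, rfl⟩)
          · exact ⟨i, by simp [hi], by simp⟩
          · refine ⟨j, by omega, ?_⟩
            rw [Function.update_of_ne]
            intro hh
            rw [hh, hi] at hj
            simp at hj
      rw [e1, Ideal.span_insert, ← hker]
      have e2 : RingHom.ker ((Ideal.Quotient.mk (Ideal.span {π g'})).comp π) =
          (Ideal.span {π g'}).comap π := by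
        ext x
        rw [RingHom.mem_ker, Ideal.mem_comap, RingHom.comp_apply, Ideal.Quotient.eq_zero_iff_mem]
      rw [e2, ← Set.image_singleton, ← Ideal.map_span, Ideal.comap_map_of_surjective π hπ]
      rfl
    · intro j hj
      by_cases hji : j = i
      · subst hji
        rw [Function.update_self, Function.update_self, hg']
        have h1 := hD i N' (by omega)
        have h2 : MvPolynomial.X i ^ (N' - 2 * D i) * G i ^ 2 + h - MvPolynomial.X i ^ N' =
            (MvPolynomial.X i ^ (N' - 2 * D i) * G i ^ 2 - MvPolynomial.X i ^ N') + h := by ring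
        rw [h2]
        refine lt_of_le_of_lt (MvPolynomial.totalDegree_add _ _) ?_
        rw [max_lt_iff]
        exact ⟨h1, by omega⟩
      · rw [Function.update_of_ne hji, Function.update_of_ne hji]
        refine hdeg j ?_
        have : j.val ≠ k := fun hh => hji (Fin.ext hh)
        omega
    · intro Q _ hQ
      refine surf_cut f (π g') _ ?_ f' hf' Q hQ
      intro Q' _ hQ'
      obtain ⟨h1, h2⟩ := hA Q' hQ'
      refine ⟨?_, h1, by rw [h2, hdim]⟩
      intro hmem
      apply hsq Q' hQ'
      have e1 : π h = π g' - π (MvPolynomial.X i ^ (N' - 2 * D i)) * π (G i) ^ 2 := by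
        rw [hg', map_add, map_mul, map_pow π (G i)]
        ring
      rw [e1]
      refine sub_mem hmem (Ideal.mul_mem_left _ _ (Ideal.pow_mem_pow ?_ 2))
      apply hQ'
      rw [RingHom.mem_ker, hfx, hG]

section
variable {R : Type u} [CommRing R] [IsRegularLocalRing R]

theorem exists_surface (hd : ringKrullDim R = 3) {T : Type u} [CommRing T] [IsDedekindDomain T]
    [Algebra R T] [Module.Finite R T] (hT : ¬ IsField T) :
    ∃ (C : Type u) (_ : CommRing C) (_ : Algebra R C) (f : C →ₐ[R] T),
      IsDomain C ∧ Module.Finite R C ∧ Finite (MaximalSpectrum C) ∧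
      (∀ (P : Ideal C) [P.IsMaximal], IsRegularLocalRing (Localization.AtPrime P)) ∧
      Function.Surjective f ∧ ¬ Function.Injective f ∧
      (∃ r : R, r ≠ 0 ∧ algebraMap R C r = 0) := by
  have : IsDomain R := PurNrd.isDomain_of_regular R
  have : Finite (MaximalSpectrum T) := finite_max (R := R)
  obtain ⟨s, φ, hφ⟩ := Algebra.FiniteType.iff_quotient_mvPolynomial''.1
    (inferInstance : Algebra.FiniteType R T)
  -- the monic polynomials
  have hint : ∀ i : Fin s, ∃ q : Polynomial R, q.Monic ∧
      Polynomial.aeval (φ (MvPolynomial.X i)) q = 0 := fun i =>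
    Algebra.IsIntegral.isIntegral (R := R) (φ (MvPolynomial.X i))
  choose q hqm hq0 using hint
  have hD : ∀ i N, 2 * (q i).natDegree < N →
      (MvPolynomial.X i ^ (N - 2 * (q i).natDegree) *
        (Polynomial.aeval (MvPolynomial.X i : MvPolynomial (Fin s) R) (q i)) ^ 2 -
        MvPolynomial.X i ^ N).totalDegree < N := by
    intro i N hN
    set E : Polynomial R := Polynomial.X ^ (N - 2 * (q i).natDegree) * (q i) ^ 2 with hE
    have hEm : E.Monic := (Polynomial.monic_X_pow _).mul ((hqm i).pow 2)
    have hEd : E.natDegree = N := by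
      rw [hE, (Polynomial.monic_X_pow _).natDegree_mul ((hqm i).pow 2),
        Polynomial.natDegree_X_pow, (hqm i).natDegree_pow]
      omega
    have h1 : MvPolynomial.X i ^ (N - 2 * (q i).natDegree) *
        (Polynomial.aeval (MvPolynomial.X i : MvPolynomial (Fin s) R) (q i)) ^ 2 -
        MvPolynomial.X i ^ N =
        Polynomial.aeval (MvPolynomial.X i : MvPolynomial (Fin s) R)
          (E - Polynomial.X ^ N) := by
      rw [hE]
      simp
    rw [h1]
    refine lt_of_le_of_lt (totalDegree_aeval_X s i _) ?_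
    have h2 : (E - Polynomial.X ^ N).degree < E.degree := by
      refine Polynomial.degree_sub_lt_left ?_ hEm.ne_zero ?_
      · rw [Polynomial.degree_X_pow, Polynomial.degree_eq_natDegree hEm.ne_zero, hEd]
      · rw [hEm.leadingCoeff, (Polynomial.monic_X_pow N).leadingCoeff]
    rcases eq_or_ne (E - Polynomial.X ^ N) 0 with h3 | h3
    · rw [h3, Polynomial.natDegree_zero]
      omega
    · have h4 := Polynomial.natDegree_lt_natDegree h3 h2
      rwa [hEd] at h4
  have hreg : ∀ (Q : Ideal (MvPolynomial (Fin s) R)) [Q.IsMaximal],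
      RingHom.ker (φ : MvPolynomial (Fin s) R →+* T) ≤ Q →
      IsRegularLocalRing (Localization.AtPrime Q) ∧
      ringKrullDim (Localization.AtPrime Q) = (3 + s : ℕ) := by
    intro Q _ hQ
    have h0 : Q.comap (MvPolynomial.C : R →+* MvPolynomial (Fin s) R) = maximalIdeal R := by
      have e1 : (Q.map (φ : MvPolynomial (Fin s) R →+* T)).comap
          (φ : MvPolynomial (Fin s) R →+* T) = Q := by
        rw [Ideal.comap_map_of_surjective (φ : MvPolynomial (Fin s) R →+* T) hφ]
        exact sup_eq_left.2 hQ
      have e2 : (Q.map (φ : MvPolynomial (Fin s) R →+* T)).IsMaximal := by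
        rcases Ideal.map_eq_top_or_isMaximal_of_surjective
          (φ : MvPolynomial (Fin s) R →+* T) hφ (I := Q) inferInstance with h | h
        · rw [h, Ideal.comap_top] at e1
          exact absurd e1.symm (Ideal.IsMaximal.ne_top inferInstance)
        · exact h
      have e3 : ((Q.map (φ : MvPolynomial (Fin s) R →+* T)).comap (algebraMap R T)).IsMaximal :=
        Ideal.isMaximal_comap_of_isIntegral_of_isMaximal _
      have e4 : Q.comap (MvPolynomial.C : R →+* MvPolynomial (Fin s) R) =
          (Q.map (φ : MvPolynomial (Fin s) R →+* T)).comap (algebraMap R T) := by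
        conv_lhs => rw [← e1]
        ext x
        rw [Ideal.mem_comap, Ideal.mem_comap, Ideal.mem_comap]
        have : (φ : MvPolynomial (Fin s) R →+* T) (MvPolynomial.C x) = algebraMap R T x :=
          φ.commutes x
        rw [this]
      rw [e4]
      exact IsLocalRing.eq_maximalIdeal e3
    obtain ⟨h1, h2⟩ := mvpoly_regular s Q h0
    refine ⟨h1, ?_⟩
    rw [h2, hd]
    push_cast
    rfl
  obtain ⟨g, N, A, _, π, f, hπ, hfπ, hker, hdeg, hA⟩ := surf_tower s
    (φ : MvPolynomial (Fin s) R →+* T) hφ
    (fun i => Polynomial.aeval (MvPolynomial.X i : MvPolynomial (Fin s) R) (q i))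
    (fun i => by
      change φ _ = 0
      rw [← Polynomial.aeval_algHom_apply]
      exact hq0 i)
    (fun i => (q i).natDegree) hD hreg s le_rfl
  have hfx : ∀ x, f (π x) = φ x := fun x => by
    change (f.comp π) x = _
    rw [hfπ]
    rfl
  have hf : Function.Surjective f := by
    intro t
    obtain ⟨x, hx⟩ := hφ t
    exact ⟨π x, by rw [hfx, hx]⟩
  have hA3 : ∀ (Q : Ideal A) [Q.IsMaximal], RingHom.ker f ≤ Q →
      IsRegularLocalRing (Localization.AtPrime Q) ∧
      ringKrullDim (Localization.AtPrime Q) = (2 + 1 : ℕ) := by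
    intro Q _ hQ
    have h1 := hA Q hQ
    have h2 : 3 + s - s = 2 + 1 := by omega
    rwa [h2] at h1
  let algA : Algebra R A := (π.comp (MvPolynomial.C : R →+* MvPolynomial (Fin s) R)).toAlgebra
  have halg : ∀ r, algebraMap R A r = π (MvPolynomial.C r) := fun r => rfl
  have hfinA : Module.Finite R A := by
    have h1 : Module.Finite R (MvPolynomial (Fin s) R ⧸ Ideal.span (Set.range g)) :=
      finite_of_monic s g N fun i => hdeg i i.isLt
    let πa : MvPolynomial (Fin s) R →ₐ[R] A := { π with commutes' := fun r => rfl }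
    have h2 : ∀ a ∈ Ideal.span (Set.range g), πa a = 0 := by
      intro a ha
      have h3 : g '' {j : Fin s | j.val < s} = Set.range g := by
        ext x
        constructor
        · rintro ⟨j, _, rfl⟩
          exact ⟨j, rfl⟩
        · rintro ⟨j, rfl⟩
          exact ⟨j, j.isLt, rfl⟩
      rw [← h3, ← hker] at ha
      exact ha
    let ψ := Ideal.Quotient.liftₐ (Ideal.span (Set.range g)) πa h2
    refine Module.Finite.of_surjective ψ.toLinearMap ?_
    intro a
    obtain ⟨x, hx⟩ := hπ a
    exact ⟨Ideal.Quotient.mk _ x, hx⟩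
  have hmaxA : Finite (MaximalSpectrum A) := finite_max (R := R)
  classical
  -- the last element
  obtain ⟨p, hp, hpI⟩ := avoid
    (fun Q : MaximalSpectrum A => if RingHom.ker f ≤ Q.asIdeal then Q.asIdeal ^ 2 else Q.asIdeal)
    (by
      intro Q Q' hQQ'
      have h1 : IsCoprime Q.asIdeal Q'.asIdeal := by
        rw [Ideal.isCoprime_iff_sup_eq]
        exact Q.isMaximal.coprime_of_ne Q'.isMaximal fun h => hQQ' (MaximalSpectrum.ext h)
      split_ifs
      · exact h1.pow
      · exact h1.pow_left
      · exact h1.pow_right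
      · exact h1) (RingHom.ker f) (by
      intro Q
      have := Q.isMaximal
      split_ifs with h
      · obtain ⟨h1, h2⟩ := hA3 Q.asIdeal h
        refine ker_not_le_sq f hf Q.asIdeal h ?_
        rw [h2]
        exact_mod_cast (by omega : 2 ≤ 2 + 1)
      · exact h)
  have hp' : f p = 0 := hp
  have hkerle : ∀ (Q : Ideal A) [Q.IsMaximal], p ∈ Q → RingHom.ker f ≤ Q := by
    intro Q hQ hpQ
    by_contra hcon
    have h1 := hpI ⟨Q, hQ⟩
    simp only [if_neg hcon] at h1
    exact h1 hpQ
  have hpsq : ∀ (Q : Ideal A) [Q.IsMaximal], RingHom.ker f ≤ Q → p ∉ Q ^ 2 := by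
    intro Q hQ hle
    have h1 := hpI ⟨Q, hQ⟩
    simp only [if_pos hle] at h1
    exact h1
  let f' : (A ⧸ Ideal.span {p}) →+* T := Ideal.Quotient.lift _ f (by
    intro a ha
    rw [Ideal.mem_span_singleton] at ha
    obtain ⟨c, rfl⟩ := ha
    rw [map_mul, hp', zero_mul])
  have hf' : f'.comp (Ideal.Quotient.mk _) = f := Ideal.Quotient.lift_comp_mk _ _ _
  have hf'x : ∀ x, f' (Ideal.Quotient.mk _ x) = f x := fun x => rfl
  have hfs : Function.Surjective f' := by
    intro t
    obtain ⟨x, hx⟩ := hf t
    exact ⟨Ideal.Quotient.mk _ x, hx⟩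
  let fa : (A ⧸ Ideal.span {p}) →ₐ[R] T := { f' with
    commutes' := fun r => by
      change f (algebraMap R A r) = _
      rw [halg, hfx]
      exact φ.commutes r }
  have hfinC : Module.Finite R (A ⧸ Ideal.span {p}) :=
    Module.Finite.of_surjective (Ideal.Quotient.mkₐ R (Ideal.span {p})).toLinearMap
      Ideal.Quotient.mk_surjective
  have hkerC : ∀ P : Ideal (A ⧸ Ideal.span {p}), P.IsMaximal → RingHom.ker f' ≤ P := by
    intro P hP x hx
    have h1 : (P.comap (Ideal.Quotient.mk (Ideal.span {p}))).IsMaximal :=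
      Ideal.comap_isMaximal_of_surjective _ Ideal.Quotient.mk_surjective
    have h2 : p ∈ P.comap (Ideal.Quotient.mk (Ideal.span {p})) := by
      rw [Ideal.mem_comap, Ideal.Quotient.eq_zero_iff_mem.2 (Ideal.mem_span_singleton_self p)]
      exact zero_mem _
    have h3 := hkerle _ h2
    obtain ⟨a, rfl⟩ := Ideal.Quotient.mk_surjective x
    exact h3 (show a ∈ RingHom.ker f from hx)
  have hregC : ∀ (P : Ideal (A ⧸ Ideal.span {p})) [P.IsMaximal],
      IsRegularLocalRing (Localization.AtPrime P) ∧
      ringKrullDim (Localization.AtPrime P) = (2 : ℕ) := by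
    intro P hP
    refine surf_cut f p 2 ?_ f' hf' P (hkerC P hP)
    intro Q _ hQ
    exact ⟨hpsq Q hQ, hA3 Q hQ⟩
  have hdomC : IsDomain (A ⧸ Ideal.span {p}) := by
    refine isDomain_of_points f' hkerC fun P hP => ?_
    have := (hregC P).1
    exact PurNrd.isDomain_of_regular _
  refine ⟨A ⧸ Ideal.span {p}, inferInstance, inferInstance, fa, hdomC, hfinC,
    finite_max (R := R), fun P hP => (hregC P).1, hfs, ?_, ?_⟩
  · intro hinj
    let e : (A ⧸ Ideal.span {p}) ≃+* T := RingEquiv.ofBijective f' ⟨hinj, hfs⟩
    obtain ⟨P, hP⟩ := Ideal.exists_maximal (A ⧸ Ideal.span {p})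
    have h1 := (hregC P).2
    rw [IsLocalization.AtPrime.ringKrullDim_eq_height P] at h1
    have h2 := Ideal.height_le_ringKrullDim_of_ne_top hP.ne_top
    rw [h1, ringKrullDim_eq_of_ringEquiv e] at h2
    have h3 : Ring.KrullDimLE 1 T := by
      rw [Ring.krullDimLE_one_iff_of_noZeroDivisors]
      intro I hI hI'
      exact hI'.isMaximal hI
    have h4 : ringKrullDim T ≤ (1 : ℕ) := (Ring.krullDimLE_iff).1 h3
    have h5 := h2.trans h4
    exact absurd (by exact_mod_cast h5 : (2 : ℕ) ≤ 1) (by norm_num)
  · exact exists_killed hd fun P _ => by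
      rw [(hregC P).2]
      rfl

end

end Pool.Agent.SLone
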