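import Pool.Agent.SLone.Det

/-! The invariant of cokernels of square matrices: multiplicativity on short exact sequences
(horseshoe). -/

namespace Pool.Agent.SLone

open Matrix

universe u

section Horseshoe

variable {B : Type u} [Ring B]
variable {N' N N'' : Type u} [AddCommGroup N'] [Module B N'] [AddCommGroup N] [Module B N]
  [AddCommGroup N''] [Module B N'']
variable {ι κ : Type} [Fintype ι] [DecidableEq ι] [Fintype κ] [DecidableEq κ]

omit [DecidableEq ι] in
/-- the horseshoe lemma for presentations by square matrices -/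
private theorem horseshoe (i : N' →ₗ[B] N) (p : N →ₗ[B] N'') (hi : Function.Injective i)
    (hp : Function.Surjective p) (hip : Function.Exact i p)
    (G' : Matrix ι ι B) (G'' : Matrix κ κ B) (q' : (ι → B) →ₗ[B] N') (q'' : (κ → B) →ₗ[B] N'')
    (sq' : Function.Surjective q') (sq'' : Function.Surjective q'')
    (kq' : LinearMap.ker q' = LinearMap.range G'.vecMulLinear)
    (kq'' : LinearMap.ker q'' = LinearMap.range G''.vecMulLinear) :
    ∃ Y : Matrix κ ι B, Nonempty (Coker (fromBlocks G' 0 Y G'') ≃ₗ[B] N) := by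
  obtain ⟨s, hs⟩ := Module.projective_lifting_property p q'' hp
  have hs' : ∀ y, p (s y) = q'' y := fun y => congrArg (fun f => f y) hs
  have hpi : ∀ x, p (i x) = 0 := fun x => (hip (i x)).2 ⟨x, rfl⟩
  have kq'0 : ∀ v, q' (v ᵥ* G') = 0 := by
    intro v
    rw [← LinearMap.mem_ker, kq']
    exact ⟨v, rfl⟩
  have kq''0 : ∀ v, q'' (v ᵥ* G'') = 0 := by
    intro v
    rw [← LinearMap.mem_ker, kq'']
    exact ⟨v, rfl⟩
  -- the lift of the relations
  have h1 : ∀ y : κ → B, ∃ x : ι → B, i (q' x) = - s (y ᵥ* G'') := by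
    intro y
    have h : p (- s (y ᵥ* G'')) = 0 := by
      rw [map_neg, hs', kq''0, neg_zero]
    obtain ⟨x', hx'⟩ := (hip _).1 h
    obtain ⟨x, rfl⟩ := sq' x'
    exact ⟨x, hx'⟩
  choose Y hY using fun k : κ => h1 (Pi.single k 1)
  have hY' : ∀ v : κ → B, i (q' (v ᵥ* Matrix.of Y)) = - s (v ᵥ* G'') := by
    intro v
    have e1 : v ᵥ* Matrix.of Y = ∑ k, v k • Y k := by
      ext j
      simp [Matrix.vecMul, dotProduct, Finset.sum_apply]
    have e2 : v ᵥ* G'' = ∑ k, v k • (Pi.single k 1 ᵥ* G'') := by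
      ext j
      simp [Matrix.vecMul, dotProduct, Finset.sum_apply]
    rw [e1, e2, map_sum, map_sum, map_sum, ← Finset.sum_neg_distrib]
    refine Finset.sum_congr rfl fun k _ => ?_
    rw [map_smul, map_smul, map_smul, hY, smul_neg]
  -- the presentation of `N`
  set q : (ι ⊕ κ → B) →ₗ[B] N :=
    (i ∘ₗ q') ∘ₗ LinearMap.funLeft B B Sum.inl + s ∘ₗ LinearMap.funLeft B B Sum.inr with hq
  have q_apply : ∀ z, q z = i (q' (z ∘ Sum.inl)) + s (z ∘ Sum.inr) := fun z => rfl
  have sq : Function.Surjective q := by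
    intro m
    obtain ⟨y, hy⟩ := sq'' (p m)
    have h : p (m - s y) = 0 := by rw [map_sub, hs', hy, sub_self]
    obtain ⟨x', hx'⟩ := (hip _).1 h
    obtain ⟨x, rfl⟩ := sq' x'
    refine ⟨Sum.elim x y, ?_⟩
    rw [q_apply, Sum.elim_comp_inl, Sum.elim_comp_inr, hx', sub_add_cancel]
  have kq : LinearMap.ker q =
      LinearMap.range (fromBlocks G' 0 (Matrix.of Y) G'').vecMulLinear := by
    apply le_antisymm
    · intro z hz
      rw [LinearMap.mem_ker, q_apply] at hz
      have h2 : q'' (z ∘ Sum.inr) = 0 := by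
        have := congrArg p hz
        rw [map_add, hpi, hs', zero_add, map_zero] at this
        exact this
      rw [← LinearMap.mem_ker, kq''] at h2
      obtain ⟨v, hv⟩ := h2
      rw [vecMulLinear_apply] at hv
      have h3 : q' (z ∘ Sum.inl - v ᵥ* Matrix.of Y) = 0 := by
        apply hi
        rw [map_sub, map_sub, hY', hv, map_zero, sub_neg_eq_add, hz]
      rw [← LinearMap.mem_ker, kq'] at h3
      obtain ⟨w, hw⟩ := h3
      rw [vecMulLinear_apply] at hw
      refine ⟨Sum.elim w v, ?_⟩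
      rw [vecMulLinear_apply, vecMul_fromBlocks]
      simp only [Sum.elim_comp_inl, Sum.elim_comp_inr, vecMul_zero, zero_add, hw, hv,
        sub_add_cancel]
      exact Sum.elim_comp_inl_inr z
    · rintro z ⟨x, rfl⟩
      rw [LinearMap.mem_ker, q_apply, vecMulLinear_apply, vecMul_fromBlocks]
      simp only [Sum.elim_comp_inl, Sum.elim_comp_inr, vecMul_zero, zero_add, map_add, kq'0,
        hY', neg_add_cancel]
  exact ⟨Matrix.of Y, ⟨(Submodule.quotEquivOfEq _ _ kq.symm).trans
    (q.quotKerEquivOfSurjective sq)⟩⟩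

end Horseshoe

section
variable {B : Type u} [Ring B] {L : Type u} [Field L] {n : ℕ}
  (σ : B →+* Matrix (Fin n) (Fin n) L) (U : Subgroup Lˣ)
variable {N' N N'' : Type u} [AddCommGroup N'] [Module B N'] [AddCommGroup N] [Module B N]
  [AddCommGroup N''] [Module B N'']

theorem del_zero_add (hσ : Function.Injective σ) {x' x'' : Lˣ ⧸ U}
    (i : N' →ₗ[B] N) (p : N →ₗ[B] N'') (hi : Function.Injective i) (hp : Function.Surjective p)
    (hip : Function.Exact i p) (h' : Del σ U 0 N' x') (h'' : Del σ U 0 N'' x'') :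
    Del σ U 0 N (x' * x'') := by
  obtain ⟨ι, h1, h2, G', hG', ⟨f'⟩, rfl⟩ := h'
  obtain ⟨κ, h1', h2', G'', hG'', ⟨f''⟩, rfl⟩ := h''
  obtain ⟨Y, ⟨e⟩⟩ := horseshoe i p hi hp hip G' G''
    (f'.toLinearMap ∘ₗ (LinearMap.range G'.vecMulLinear).mkQ)
    (f''.toLinearMap ∘ₗ (LinearMap.range G''.vecMulLinear).mkQ)
    (f'.surjective.comp (Submodule.mkQ_surjective _))
    (f''.surjective.comp (Submodule.mkQ_surjective _))
    (by rw [LinearEquiv.ker_comp, Submodule.ker_mkQ])
    (by rw [LinearEquiv.ker_comp, Submodule.ker_mkQ])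
  have hd : dt σ (fromBlocks G' 0 Y G'') = dt σ G' * dt σ G'' := dt_blocks' σ G' Y G''
  have h0 : dt σ (fromBlocks G' 0 Y G'') ≠ 0 := by
    rw [hd]
    exact mul_ne_zero hG' hG''
  refine ⟨ι ⊕ κ, inferInstance, inferInstance, fromBlocks G' 0 Y G'', h0, ⟨e⟩, ?_⟩
  rw [← QuotientGroup.mk_mul]
  congr 1
  apply Units.ext
  rw [Units.val_mul, Units.val_mk0, Units.val_mk0, Units.val_mk0, hd]

end

end Pool.Agent.SLone
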