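import Pool.Agent.SLone.Det

/-! The invariant of the kernel of a surjection between cokernels of square matrices. -/

namespace Pool.Agent.SLone

open Matrix

universe u

section
variable {B : Type u} [Ring B] {L : Type u} [Field L] {n : ℕ}
  (σ : B →+* Matrix (Fin n) (Fin n) L) (U : Subgroup Lˣ)
variable {N' N N'' : Type u} [AddCommGroup N'] [Module B N'] [AddCommGroup N] [Module B N]
  [AddCommGroup N''] [Module B N'']

private theorem lift_rows {ι κ : Type} [Fintype ι] [DecidableEq ι] [Fintype κ] [DecidableEq κ]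
    (f : (ι → B) →ₗ[B] N) (g : (κ → B) →ₗ[B] N) (hg : Function.Surjective g) :
    ∃ S : Matrix ι κ B, ∀ v : ι → B, g (v ᵥ* S) = f v := by
  choose s hs using fun i : ι => hg (f (Pi.single i 1))
  refine ⟨Matrix.of s, fun v => ?_⟩
  have h : g ∘ₗ (Matrix.of s).vecMulLinear = f := by
    refine (Pi.basisFun B ι).ext fun i => ?_
    rw [Pi.basisFun_apply, LinearMap.comp_apply, Matrix.vecMulLinear_apply,
      Matrix.single_one_vecMul]
    exact hs i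
  exact LinearMap.congr_fun h v

theorem del_zero_ker (hσ : Function.Injective σ) {x x'' : Lˣ ⧸ U}
    (p : N →ₗ[B] N'') (hp : Function.Surjective p) (h : Del σ U 0 N x)
    (h'' : Del σ U 0 N'' x'') : Del σ U 0 (LinearMap.ker p) (x / x'') := by
  obtain ⟨ι, _, _, G, hG, ⟨e⟩, rfl⟩ := h
  obtain ⟨κ, _, _, K, hK, ⟨e''⟩, rfl⟩ := h''
  -- the two presentations
  obtain ⟨π, hπ, hπk⟩ : ∃ π : (ι → B) →ₗ[B] N, Function.Surjective π ∧
      ∀ v, π v = 0 ↔ ∃ w, w ᵥ* G = v := by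
    refine ⟨e.toLinearMap ∘ₗ (LinearMap.range G.vecMulLinear).mkQ,
      e.surjective.comp (Submodule.mkQ_surjective _), fun v => ?_⟩
    rw [LinearMap.comp_apply, LinearEquiv.coe_coe, e.map_eq_zero_iff, Submodule.mkQ_apply,
      Submodule.Quotient.mk_eq_zero, LinearMap.mem_range]
    rfl
  obtain ⟨ρ, hρ, hρk⟩ : ∃ π : (κ → B) →ₗ[B] N'', Function.Surjective π ∧
      ∀ v, π v = 0 ↔ ∃ w, w ᵥ* K = v := by
    refine ⟨e''.toLinearMap ∘ₗ (LinearMap.range K.vecMulLinear).mkQ,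
      e''.surjective.comp (Submodule.mkQ_surjective _), fun v => ?_⟩
    rw [LinearMap.comp_apply, LinearEquiv.coe_coe, e''.map_eq_zero_iff, Submodule.mkQ_apply,
      Submodule.Quotient.mk_eq_zero, LinearMap.mem_range]
    rfl
  obtain ⟨S, hS⟩ := lift_rows (p ∘ₗ π) ρ hρ
  obtain ⟨T, hT⟩ := lift_rows ρ (p ∘ₗ π) (hp.comp hπ)
  simp only [LinearMap.comp_apply] at hS hT
  let H1 : Matrix (ι ⊕ κ) (ι ⊕ κ) B := Matrix.fromBlocks G 0 (-T) 1
  let H2 : Matrix (ι ⊕ κ) (ι ⊕ κ) B := Matrix.fromBlocks 1 (-S) 0 K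
  have hd1 : dt σ H1 = dt σ G := by
    change dt σ (Matrix.fromBlocks G 0 (-T) 1) = _
    rw [dt_blocks', dt_one, mul_one]
  have hd2 : dt σ H2 = dt σ K := by
    change dt σ (Matrix.fromBlocks 1 (-S) 0 K) = _
    rw [dt_blocks, dt_one, one_mul]
  have e1 : ∀ v : ι ⊕ κ → B, v ᵥ* H1 =
      Sum.elim ((v ∘ Sum.inl) ᵥ* G - (v ∘ Sum.inr) ᵥ* T) (v ∘ Sum.inr) := by
    intro v
    change v ᵥ* (Matrix.fromBlocks G 0 (-T) 1) = _
    rw [Matrix.vecMul_fromBlocks]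
    simp [Matrix.vecMul_neg, sub_eq_add_neg]
  have e2 : ∀ v : ι ⊕ κ → B, v ᵥ* H2 =
      Sum.elim (v ∘ Sum.inl) ((v ∘ Sum.inr) ᵥ* K - (v ∘ Sum.inl) ᵥ* S) := by
    intro v
    change v ᵥ* (Matrix.fromBlocks 1 (-S) 0 K) = _
    rw [Matrix.vecMul_fromBlocks]
    simp [Matrix.vecMul_neg, sub_eq_add_neg, add_comm]
  -- the row space of `H2`
  have hrow : ∀ z : ι ⊕ κ → B, p (π (z ∘ Sum.inl)) + ρ (z ∘ Sum.inr) = 0 →
      ∃ v, v ᵥ* H2 = z := by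
    intro z hz
    obtain ⟨w, hw⟩ := (hρk (z ∘ Sum.inr + (z ∘ Sum.inl) ᵥ* S)).1 (by
      rw [map_add, hS, add_comm]; exact hz)
    refine ⟨Sum.elim (z ∘ Sum.inl) w, ?_⟩
    rw [e2]
    funext k
    rcases k with k | k
    · rfl
    · simp only [Sum.elim_inr]
      have : (Sum.elim (z ∘ Sum.inl) w ∘ Sum.inr : κ → B) = w := rfl
      rw [this, hw]
      have : (Sum.elim (z ∘ Sum.inl) w ∘ Sum.inl : ι → B) = z ∘ Sum.inl := rfl
      rw [this]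
      simp
  have hker : ∀ v : ι ⊕ κ → B, p (π ((v ᵥ* H2) ∘ Sum.inl)) + ρ ((v ᵥ* H2) ∘ Sum.inr) = 0 := by
    intro v
    rw [e2]
    have h1 : (Sum.elim (v ∘ Sum.inl) ((v ∘ Sum.inr) ᵥ* K - (v ∘ Sum.inl) ᵥ* S) ∘ Sum.inl
      : ι → B) = v ∘ Sum.inl := rfl
    have h2 : (Sum.elim (v ∘ Sum.inl) ((v ∘ Sum.inr) ᵥ* K - (v ∘ Sum.inl) ᵥ* S) ∘ Sum.inr
      : κ → B) = (v ∘ Sum.inr) ᵥ* K - (v ∘ Sum.inl) ᵥ* S := rfl
    rw [h1, h2, map_sub, hS, (hρk _).2 ⟨_, rfl⟩]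
    simp
  have hinj : Function.Injective H2.vecMulLinear := by
    refine inj_of_dt σ hσ H2 ?_
    rw [hd2]
    exact hK
  -- the matrix `V`
  have hV : ∀ k : ι ⊕ κ, ∃ v, v ᵥ* H2 = H1 k := by
    intro k
    apply hrow
    have h1 : H1 k = (Pi.single k 1) ᵥ* H1 := (Matrix.single_one_vecMul _ _).symm
    rw [h1, e1]
    set v : ι ⊕ κ → B := Pi.single k 1
    have h2 : (Sum.elim ((v ∘ Sum.inl) ᵥ* G - (v ∘ Sum.inr) ᵥ* T) (v ∘ Sum.inr) ∘ Sum.inl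
      : ι → B) = (v ∘ Sum.inl) ᵥ* G - (v ∘ Sum.inr) ᵥ* T := rfl
    have h3 : (Sum.elim ((v ∘ Sum.inl) ᵥ* G - (v ∘ Sum.inr) ᵥ* T) (v ∘ Sum.inr) ∘ Sum.inr
      : κ → B) = v ∘ Sum.inr := rfl
    rw [h2, h3, map_sub, (hπk _).2 ⟨_, rfl⟩, zero_sub, map_neg, hT]
    simp
  choose V0 hV0 using hV
  let V : Matrix (ι ⊕ κ) (ι ⊕ κ) B := Matrix.of V0
  have hVH : V * H2 = H1 := by
    ext k l
    have := congrFun (hV0 k) l
    rw [← this]
    rfl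
  have hdV : dt σ V * dt σ K = dt σ G := by
    rw [← hd2, ← dt_mul, hVH, hd1]
  have hV1 : dt σ V ≠ 0 := by
    intro h0
    rw [h0, zero_mul] at hdV
    exact hG hdV.symm
  -- the map onto the kernel
  let Φ : (ι ⊕ κ → B) →ₗ[B] N :=
    π ∘ₗ ((LinearMap.funLeft B B Sum.inl) + T.vecMulLinear ∘ₗ (LinearMap.funLeft B B Sum.inr))
      ∘ₗ H2.vecMulLinear
  have hΦ : ∀ v, Φ v = π ((v ᵥ* H2) ∘ Sum.inl + ((v ᵥ* H2) ∘ Sum.inr) ᵥ* T) := fun v => rfl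
  have hΦk : ∀ v, Φ v ∈ LinearMap.ker p := by
    intro v
    rw [LinearMap.mem_ker, hΦ, map_add, map_add, hT]
    exact hker v
  let Ψ : (ι ⊕ κ → B) →ₗ[B] LinearMap.ker p := Φ.codRestrict _ hΦk
  have hΨs : Function.Surjective Ψ := by
    rintro ⟨m, hm⟩
    obtain ⟨y, rfl⟩ := hπ m
    have h1 : (Sum.elim y (0 : κ → B)) ∘ Sum.inl = y := rfl
    have h2 : (Sum.elim y (0 : κ → B)) ∘ Sum.inr = 0 := rfl
    obtain ⟨v, hv⟩ := hrow (Sum.elim y 0) (by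
      rw [h1, h2, map_zero, add_zero]
      exact hm)
    refine ⟨v, Subtype.ext ?_⟩
    change Φ v = π y
    rw [hΦ, hv, h1, h2, Matrix.zero_vecMul, add_zero]
  have hΨk : LinearMap.ker Ψ = LinearMap.range V.vecMulLinear := by
    ext v
    rw [LinearMap.mem_ker, LinearMap.mem_range]
    constructor
    · intro hv
      have h0 : Φ v = 0 := congrArg Subtype.val hv
      rw [hΦ] at h0
      obtain ⟨w, hw⟩ := (hπk _).1 h0
      refine ⟨Sum.elim w ((v ᵥ* H2) ∘ Sum.inr), hinj ?_⟩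
      rw [Matrix.vecMulLinear_apply, Matrix.vecMulLinear_apply, Matrix.vecMulLinear_apply,
        Matrix.vecMul_vecMul, hVH, e1]
      funext k
      rcases k with k | k
      · simp only [Sum.elim_inl]
        have h1 : (Sum.elim w ((v ᵥ* H2) ∘ Sum.inr) ∘ Sum.inl : ι → B) = w := rfl
        have h2 : (Sum.elim w ((v ᵥ* H2) ∘ Sum.inr) ∘ Sum.inr : κ → B) = (v ᵥ* H2) ∘ Sum.inr := rfl
        rw [h1, h2, hw]
        simp
      · rfl
    · rintro ⟨w, rfl⟩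
      apply Subtype.ext
      change Φ _ = 0
      rw [hΦ, Matrix.vecMulLinear_apply, Matrix.vecMul_vecMul, hVH, e1]
      have h2 : (Sum.elim ((w ∘ Sum.inl) ᵥ* G - (w ∘ Sum.inr) ᵥ* T) (w ∘ Sum.inr) ∘ Sum.inl
        : ι → B) = (w ∘ Sum.inl) ᵥ* G - (w ∘ Sum.inr) ᵥ* T := rfl
      have h3 : (Sum.elim ((w ∘ Sum.inl) ᵥ* G - (w ∘ Sum.inr) ᵥ* T) (w ∘ Sum.inr) ∘ Sum.inr
        : κ → B) = w ∘ Sum.inr := rfl
      rw [h2, h3, sub_add_cancel]
      exact (hπk _).2 ⟨_, rfl⟩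
  refine ⟨ι ⊕ κ, inferInstance, inferInstance, V, hV1, ⟨?_⟩, ?_⟩
  · exact (Submodule.quotEquivOfEq _ _ hΨk.symm).trans (Ψ.quotKerEquivOfSurjective hΨs)
  · rw [div_eq_iff_eq_mul, ← QuotientGroup.mk_mul]
    congr 1
    ext
    exact hdV.symm

end

end Pool.Agent.SLone
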