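import Pool.Agent.SLone.Det

/-! The invariant of cokernels of square matrices: uniqueness (Fitting). -/

namespace Pool.Agent.SLone

open Matrix

universe u

section Rows

variable {B : Type u} [Ring B]

/-- rows in a row space -/
theorem factor_rows {μ κ ν : Type} [Fintype κ] (M : Matrix μ ν B) (H : Matrix κ ν B)
    (h : ∀ r, M r ∈ LinearMap.range H.vecMulLinear) : ∃ V : Matrix μ κ B, V * H = M := by
  choose V hV using h
  refine ⟨Matrix.of V, ?_⟩
  ext r c
  exact congrFun (hV r) c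

theorem cancel_rows {μ κ ν : Type} [Fintype κ] {V W : Matrix μ κ B} {H : Matrix κ ν B}
    (hH : Function.Injective H.vecMulLinear) (h : V * H = W * H) : V = W := by
  ext r c
  have h1 : H.vecMulLinear (V r) = H.vecMulLinear (W r) := by
    funext j
    exact congrFun (congrFun h r) j
  exact congrFun (hH h1) c

/-- two square matrices with the same row space differ by an invertible matrix -/
theorem unit_of_range {κ : Type} [Fintype κ] [DecidableEq κ] {H₁ H₂ : Matrix κ κ B}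
    (h₁ : Function.Injective H₁.vecMulLinear) (h₂ : Function.Injective H₂.vecMulLinear)
    (h : LinearMap.range H₁.vecMulLinear = LinearMap.range H₂.vecMulLinear) :
    ∃ V : Matrix κ κ B, IsUnit V ∧ H₁ = V * H₂ := by
  have row : ∀ (H : Matrix κ κ B) (r : κ), H r ∈ LinearMap.range H.vecMulLinear := by
    intro H r
    refine ⟨Pi.single r 1, ?_⟩
    rw [vecMulLinear_apply, single_one_vecMul]
    rfl
  obtain ⟨V, hV⟩ := factor_rows H₁ H₂ fun r => h ▸ row H₁ r
  obtain ⟨W, hW⟩ := factor_rows H₂ H₁ fun r => h ▸ row H₂ r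
  have h3 : V * W = 1 := by
    apply cancel_rows h₁
    rw [Matrix.mul_assoc, hW, hV, Matrix.one_mul]
  have h4 : W * V = 1 := by
    apply cancel_rows h₂
    rw [Matrix.mul_assoc, hV, hW, Matrix.one_mul]
  exact ⟨V, ⟨⟨V, W, h3, h4⟩, rfl⟩, hV.symm⟩

variable {N : Type u} [AddCommGroup N] [Module B N]
variable {ι κ : Type} [Fintype ι] [DecidableEq ι] [Fintype κ] [DecidableEq κ]

/-- the sum of two maps from free modules -/
def pairMap (p : (ι → B) →ₗ[B] N) (p' : (κ → B) →ₗ[B] N) : (ι ⊕ κ → B) →ₗ[B] N :=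
  p ∘ₗ LinearMap.funLeft B B Sum.inl + p' ∘ₗ LinearMap.funLeft B B Sum.inr

omit [Fintype ι] [DecidableEq ι] [Fintype κ] [DecidableEq κ] in
theorem pairMap_apply (p : (ι → B) →ₗ[B] N) (p' : (κ → B) →ₗ[B] N) (z : ι ⊕ κ → B) :
    pairMap p p' z = p (z ∘ Sum.inl) + p' (z ∘ Sum.inr) := rfl

omit [Fintype ι] [DecidableEq ι] in
/-- a lift of maps from free modules, as a matrix -/
theorem exists_lift (p : (ι → B) →ₗ[B] N) (hp : Function.Surjective p)
    (p' : (κ → B) →ₗ[B] N) : ∃ S : Matrix κ ι B, ∀ y, p (y ᵥ* S) = p' y := by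
  obtain ⟨s, hs⟩ := Module.projective_lifting_property p p' hp
  refine ⟨LinearMap.toMatrixRight' s, fun y => ?_⟩
  have h1 : y ᵥ* LinearMap.toMatrixRight' s = s y := by
    rw [← Matrix.toLinearMapRight'_apply]
    exact congrArg (fun f => f y) (LinearMap.toMatrixRight'.symm_apply_apply s)
  rw [h1]
  exact congrArg (fun f => f y) hs

theorem range_left {p : (ι → B) →ₗ[B] N} {G : Matrix ι ι B}
    (hG : LinearMap.ker p = LinearMap.range G.vecMulLinear) {p' : (κ → B) →ₗ[B] N}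
    {S : Matrix κ ι B} (hS : ∀ y, p (y ᵥ* S) = p' y) :
    LinearMap.range (fromBlocks G 0 (-S) 1).vecMulLinear = LinearMap.ker (pairMap p p') := by
  apply le_antisymm
  · rintro z ⟨x, rfl⟩
    rw [LinearMap.mem_ker, pairMap_apply, vecMulLinear_apply, vecMul_fromBlocks]
    have h1 : p ((x ∘ Sum.inl) ᵥ* G) = 0 := by
      rw [← LinearMap.mem_ker, hG]
      exact ⟨_, rfl⟩
    simp only [Sum.elim_comp_inl, Sum.elim_comp_inr, vecMul_zero, vecMul_one, zero_add,
      vecMul_neg, map_add, map_neg, h1, hS, neg_add_cancel]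
  · intro z hz
    rw [LinearMap.mem_ker, pairMap_apply] at hz
    have h1 : (z ∘ Sum.inl) + (z ∘ Sum.inr) ᵥ* S ∈ LinearMap.ker p := by
      rw [LinearMap.mem_ker, map_add, hS, hz]
    rw [hG] at h1
    obtain ⟨v, hv⟩ := h1
    rw [vecMulLinear_apply] at hv
    refine ⟨Sum.elim v (z ∘ Sum.inr), ?_⟩
    rw [vecMulLinear_apply, vecMul_fromBlocks]
    simp only [Sum.elim_comp_inl, Sum.elim_comp_inr, vecMul_zero, vecMul_one, zero_add,
      vecMul_neg, hv, add_neg_cancel_right]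
    exact Sum.elim_comp_inl_inr z

theorem range_right {p : (ι → B) →ₗ[B] N} {p' : (κ → B) →ₗ[B] N} {G : Matrix κ κ B}
    (hG : LinearMap.ker p' = LinearMap.range G.vecMulLinear)
    {S : Matrix ι κ B} (hS : ∀ y, p' (y ᵥ* S) = p y) :
    LinearMap.range (fromBlocks 1 (-S) 0 G).vecMulLinear = LinearMap.ker (pairMap p p') := by
  apply le_antisymm
  · rintro z ⟨x, rfl⟩
    rw [LinearMap.mem_ker, pairMap_apply, vecMulLinear_apply, vecMul_fromBlocks]
    have h1 : p' ((x ∘ Sum.inr) ᵥ* G) = 0 := by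
      rw [← LinearMap.mem_ker, hG]
      exact ⟨_, rfl⟩
    simp only [Sum.elim_comp_inl, Sum.elim_comp_inr, vecMul_zero, vecMul_one, add_zero,
      vecMul_neg, map_add, map_neg, h1, hS, add_neg_cancel]
  · intro z hz
    rw [LinearMap.mem_ker, pairMap_apply] at hz
    have h1 : (z ∘ Sum.inl) ᵥ* S + (z ∘ Sum.inr) ∈ LinearMap.ker p' := by
      rw [LinearMap.mem_ker, map_add, hS, hz]
    rw [hG] at h1
    obtain ⟨v, hv⟩ := h1
    rw [vecMulLinear_apply] at hv
    refine ⟨Sum.elim (z ∘ Sum.inl) v, ?_⟩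
    rw [vecMulLinear_apply, vecMul_fromBlocks]
    simp only [Sum.elim_comp_inl, Sum.elim_comp_inr, vecMul_zero, vecMul_one, add_zero,
      vecMul_neg, hv, neg_add_cancel_left]
    exact Sum.elim_comp_inl_inr z

end Rows

section
variable {B : Type u} [Ring B] {L : Type u} [Field L] {n : ℕ}
  (σ : B →+* Matrix (Fin n) (Fin n) L) (U : Subgroup Lˣ)
variable {N' N N'' : Type u} [AddCommGroup N'] [Module B N'] [AddCommGroup N] [Module B N]
  [AddCommGroup N''] [Module B N'']

theorem del_congr (d : ℕ) {x : Lˣ ⧸ U} (e : N ≃ₗ[B] N') (h : Del σ U d N x) :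
    Del σ U d N' x := by
  induction d generalizing N N' x with
  | zero =>
    obtain ⟨ι, h1, h2, G, hG, ⟨f⟩, hx⟩ := h
    exact ⟨ι, h1, h2, G, hG, ⟨f.trans e⟩, hx⟩
  | succ d ih =>
    obtain ⟨P, h1, h2, f, hf, y, z, hy, hz, hx⟩ := h
    refine ⟨P, h1, h2, e.toLinearMap ∘ₗ f, e.surjective.comp hf, y, z, hy, ?_, hx⟩
    exact ih (LinearEquiv.ofEq _ _ (LinearEquiv.ker_comp e f).symm) hz

theorem del_zero_unique (hσ : Function.Injective σ) (hU : AutTriv σ U) {x x' : Lˣ ⧸ U}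
    (h : Del σ U 0 N x) (h' : Del σ U 0 N x') : x = x' := by
  obtain ⟨ι, h1, h2, G, hG, ⟨f⟩, rfl⟩ := h
  obtain ⟨κ, h1', h2', G', hG', ⟨f'⟩, rfl⟩ := h'
  set p : (ι → B) →ₗ[B] N := f.toLinearMap ∘ₗ (LinearMap.range G.vecMulLinear).mkQ with hp
  set p' : (κ → B) →ₗ[B] N := f'.toLinearMap ∘ₗ (LinearMap.range G'.vecMulLinear).mkQ with hp'
  have kp : LinearMap.ker p = LinearMap.range G.vecMulLinear := by
    rw [hp, LinearEquiv.ker_comp, Submodule.ker_mkQ]
  have kp' : LinearMap.ker p' = LinearMap.range G'.vecMulLinear := by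
    rw [hp', LinearEquiv.ker_comp, Submodule.ker_mkQ]
  have sp : Function.Surjective p := f.surjective.comp (Submodule.mkQ_surjective _)
  have sp' : Function.Surjective p' := f'.surjective.comp (Submodule.mkQ_surjective _)
  obtain ⟨S, hS⟩ := exists_lift p sp p'
  obtain ⟨S', hS'⟩ := exists_lift p' sp' p
  have d1 : dt σ (fromBlocks G 0 (-S) 1) = dt σ G := by
    rw [dt_blocks', dt_one, mul_one]
  have d2 : dt σ (fromBlocks 1 (-S') 0 G') = dt σ G' := by
    rw [dt_blocks, dt_one, one_mul]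
  obtain ⟨V, hV, hVm⟩ := unit_of_range
    (inj_of_dt σ hσ (fromBlocks G 0 (-S) 1) (by rw [d1]; exact hG))
    (inj_of_dt σ hσ (fromBlocks 1 (-S') 0 G') (by rw [d2]; exact hG'))
    ((range_left kp hS).trans (range_right kp' hS').symm)
  have d3 := congrArg (dt σ) hVm
  rw [dt_mul, d1, d2] at d3
  have h3 := hU (ι ⊕ κ) V hV (dt_ne_zero_of_isUnit σ V hV)
  rw [eq_comm, QuotientGroup.eq]
  have h4 : (Units.mk0 (dt σ G') hG')⁻¹ * Units.mk0 (dt σ G) hG =
      Units.mk0 (dt σ V) (dt_ne_zero_of_isUnit σ V hV) := by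
    rw [inv_mul_eq_iff_eq_mul]
    apply Units.ext
    rw [Units.val_mul, Units.val_mk0, Units.val_mk0, Units.val_mk0, d3, mul_comm]
  rw [h4]
  exact h3

end

end Pool.Agent.SLone
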